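import Mathlib

/-!
Reed-Muller codes without constant term over finite vector spaces over the field with two elements,
characters and their orthogonality.
-/

set_option autoImplicit false

namespace Pool.Agent.H92.SC

open Finset

/-- Sign of an element of `ZMod 2`. -/
def sgn (t : ZMod 2) : ℝ := if t = 0 then 1 else -1

theorem zcases (t : ZMod 2) : t = 0 ∨ t = 1 := by
  revert t; decide

@[simp] theorem sgn_zero : sgn 0 = 1 := by simp [sgn]

@[simp] theorem sgn_one : sgn 1 = -1 := by simp [sgn]

theorem sgn_add (s t : ZMod 2) : sgn (s + t) = sgn s * sgn t := by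
  have h11 : (1 : ZMod 2) + 1 = 0 := by decide
  rcases zcases s with h | h <;> rcases zcases t with h' | h' <;> rw [h, h'] <;>
    simp [h11]

theorem sgn_mul_self (t : ZMod 2) : sgn t * sgn t = 1 := by
  rcases zcases t with h | h <;> rw [h] <;> simp

theorem sgn_sq (t : ZMod 2) : sgn t ^ 2 = 1 := by rw [sq, sgn_mul_self]

theorem z_add_self (t : ZMod 2) : t + t = 0 := by
  revert t; decide

theorem ind_zero (t : ZMod 2) : (if t = 0 then (1 : ℝ) else 0) = (1 + sgn t) / 2 := by
  rcases zcases t with h | h <;> rw [h] <;> simp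

theorem ind_one (t : ZMod 2) : (if t = 1 then (1 : ℝ) else 0) = (1 - sgn t) / 2 := by
  rcases zcases t with h | h <;> rw [h] <;> simp

section Dual

variable {M : Type} [AddCommGroup M] [Module (ZMod 2) M]

theorem m_add_self (w : M) : w + w = 0 := by
  have h : (1 : ZMod 2) + 1 = 0 := by decide
  calc w + w = ((1 : ZMod 2) + 1) • w := by rw [add_smul, one_smul]
    _ = 0 := by rw [h, zero_smul]

theorem m_neg (w : M) : -w = w := neg_eq_of_add_eq_zero_left (m_add_self w)

theorem m_sub (v w : M) : v - w = v + w := by rw [sub_eq_add_neg, m_neg]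

noncomputable instance instFintypeDual [Finite M] : Fintype (Module.Dual (ZMod 2) M) :=
  @Fintype.ofFinite _ (DFunLike.finite _)

theorem exists_dual_one {w : M} (hw : w ≠ 0) : ∃ φ : Module.Dual (ZMod 2) M, φ w = 1 := by
  by_contra hcon
  push Not at hcon
  apply hw
  apply (Module.forall_dual_apply_eq_zero_iff (ZMod 2) w).mp
  intro φ
  rcases zcases (φ w) with h | h
  · exact h
  · exact absurd h (hcon φ)

open Classical in
theorem sum_sgn_dual [Finite M] (w : M) : ∑ φ : Module.Dual (ZMod 2) M, sgn (φ w) =
    if w = 0 then (Fintype.card (Module.Dual (ZMod 2) M) : ℝ) else 0 := by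
  split_ifs with h
  · simp [h]
  · obtain ⟨φ₀, h0⟩ := exists_dual_one h
    have h1 : ∑ φ : Module.Dual (ZMod 2) M, sgn (φ w) =
        ∑ φ : Module.Dual (ZMod 2) M, sgn ((φ + φ₀) w) :=
      (Equiv.sum_comp (Equiv.addRight φ₀) (fun φ : Module.Dual (ZMod 2) M => sgn (φ w))).symm
    have h2 : ∀ φ : Module.Dual (ZMod 2) M, sgn ((φ + φ₀) w) = - sgn (φ w) := by
      intro φ
      rw [LinearMap.add_apply, sgn_add, h0, sgn_one]
      ring
    simp only [h2] at h1
    rw [Finset.sum_neg_distrib] at h1
    linarith

open Classical in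
theorem sum_sgn_pt [Fintype M] (φ : Module.Dual (ZMod 2) M) : ∑ w, sgn (φ w) =
    if φ = 0 then (Fintype.card M : ℝ) else 0 := by
  split_ifs with h
  · simp [h]
  · obtain ⟨w₀, h0⟩ : ∃ w₀, φ w₀ = 1 := by
      by_contra hcon
      push Not at hcon
      apply h
      ext w
      rcases zcases (φ w) with h' | h'
      · exact h'
      · exact absurd h' (hcon w)
    have h1 : ∑ w, sgn (φ w) = ∑ w, sgn (φ (w + w₀)) :=
      (Equiv.sum_comp (Equiv.addRight w₀) (fun w => sgn (φ w))).symm
    have h2 : ∀ w, sgn (φ (w + w₀)) = - sgn (φ w) := by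
      intro w
      rw [map_add, sgn_add, h0, sgn_one]
      ring
    simp only [h2] at h1
    rw [Finset.sum_neg_distrib] at h1
    linarith

theorem card_dual [Fintype M] : Fintype.card (Module.Dual (ZMod 2) M) = Fintype.card M := by
  classical
  have h1 : ∑ φ : Module.Dual (ZMod 2) M, ∑ w, sgn (φ w) = (Fintype.card M : ℝ) := by
    simp only [sum_sgn_pt]
    simp
  rw [Finset.sum_comm] at h1
  simp only [sum_sgn_dual] at h1
  simp at h1
  exact_mod_cast h1

end Dual

section RM

variable (U : Type) [AddCommGroup U] [Module (ZMod 2) U]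

variable {U} in
/-- Product of `r` linear functionals. -/
def mono {r : ℕ} (c : Fin r → Module.Dual (ZMod 2) U) : U → ZMod 2 := fun x => ∏ i, c i x

/-- Functions of degree at most `r` without constant term. -/
def RM (r : ℕ) : Submodule (ZMod 2) (U → ZMod 2) :=
  Submodule.span (ZMod 2) (Set.range (mono (U := U) (r := r)))

noncomputable instance instFintypeSub [Fintype U] (S : Submodule (ZMod 2) (U → ZMod 2)) :
    Fintype S := Fintype.ofFinite _

/-- Linear functionals as functions. -/
def lin : Module.Dual (ZMod 2) U →ₗ[ZMod 2] (U → ZMod 2) where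
  toFun a := fun x => a x
  map_add' _ _ := rfl
  map_smul' _ _ := rfl

variable {U}

@[simp] theorem lin_apply (a : Module.Dual (ZMod 2) U) (x : U) : lin U a x = a x := rfl

theorem mono_mem {r : ℕ} (c : Fin r → Module.Dual (ZMod 2) U) : mono c ∈ RM U r :=
  Submodule.subset_span ⟨c, rfl⟩

theorem lin_mem {r : ℕ} (hr : 1 ≤ r) (a : Module.Dual (ZMod 2) U) : lin U a ∈ RM U r := by
  have : lin U a = mono (fun _ : Fin r => a) := by
    funext x
    simp only [lin_apply, mono, Finset.prod_const, Finset.card_univ, Fintype.card_fin]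
    rcases zcases (a x) with h | h <;> rw [h]
    · rw [zero_pow (by omega)]
    · rw [one_pow]
  rw [this]
  exact mono_mem _

theorem RM_zero {r : ℕ} (hr : 1 ≤ r) {f : U → ZMod 2} (hf : f ∈ RM U r) : f 0 = 0 := by
  unfold RM at hf
  induction hf using Submodule.span_induction with
  | mem x hx =>
    obtain ⟨c, rfl⟩ := hx
    simp only [mono, map_zero, Finset.prod_const, Finset.card_univ, Fintype.card_fin]
    exact zero_pow (by omega)
  | zero => rfl
  | add x y _ _ hx hy => rw [Pi.add_apply, hx, hy, add_zero]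
  | smul a x _ hx => rw [Pi.smul_apply, hx, smul_zero]

theorem RM_comp {Y : Type} [AddCommGroup Y] [Module (ZMod 2) Y] {r : ℕ}
    (γ : Y →ₗ[ZMod 2] U) {f : U → ZMod 2} (hf : f ∈ RM U r) : (fun y => f (γ y)) ∈ RM Y r := by
  unfold RM at hf
  induction hf using Submodule.span_induction with
  | mem x hx =>
    obtain ⟨c, rfl⟩ := hx
    exact mono_mem (fun i => (c i).comp γ)
  | zero => exact (RM Y r).zero_mem
  | add x y _ _ hx hy => exact (RM Y r).add_mem hx hy
  | smul a x _ hx => exact (RM Y r).smul_mem a hx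

theorem lin_injective : Function.Injective (lin U) := by
  intro a b h
  ext x
  exact congrFun h x

theorem exists_idx : ∃ g : (U → ZMod 2) →ₗ[ZMod 2] Module.Dual (ZMod 2) U,
    g ∘ₗ lin U = LinearMap.id :=
  LinearMap.exists_leftInverse_of_injective _ (LinearMap.ker_eq_bot.mpr lin_injective)

variable (U) in
/-- A linear choice of the linear part. -/
noncomputable def idx : (U → ZMod 2) →ₗ[ZMod 2] Module.Dual (ZMod 2) U :=
  Classical.choose exists_idx

@[simp] theorem idx_lin (a : Module.Dual (ZMod 2) U) : idx U (lin U a) = a :=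
  LinearMap.congr_fun (Classical.choose_spec (exists_idx (U := U))) a

variable (U) in
/-- Representatives of the functions modulo linear functions. -/
noncomputable def G0 (r : ℕ) : Submodule (ZMod 2) (U → ZMod 2) := RM U r ⊓ LinearMap.ker (idx U)

/-- The representative of a function. -/
noncomputable def rep (f : U → ZMod 2) : U → ZMod 2 := f - lin U (idx U f)

theorem rep_mem {r : ℕ} (hr : 1 ≤ r) {f : U → ZMod 2} (hf : f ∈ RM U r) : rep f ∈ G0 U r := by
  refine ⟨(RM U r).sub_mem hf (lin_mem hr _), ?_⟩
  rw [SetLike.mem_coe, LinearMap.mem_ker, rep, map_sub, idx_lin, sub_self]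

theorem rep_add_lin (f : U → ZMod 2) : rep f + lin U (idx U f) = f := by
  rw [rep, sub_add_cancel]

theorem rep_of_G0_add {r : ℕ} {f : U → ZMod 2} (hf : f ∈ G0 U r) (a : Module.Dual (ZMod 2) U) :
    rep (f + lin U a) = f := by
  have h : idx U f = 0 := hf.2
  rw [rep, map_add, idx_lin, h, zero_add, add_sub_cancel_right]

theorem idx_of_G0_add {r : ℕ} {f : U → ZMod 2} (hf : f ∈ G0 U r) (a : Module.Dual (ZMod 2) U) :
    idx U (f + lin U a) = a := by
  have h : idx U f = 0 := hf.2
  rw [map_add, idx_lin, h, zero_add]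

theorem card_G0 [Fintype U] {r : ℕ} (hr : 1 ≤ r) :
    Fintype.card (G0 U r) * Fintype.card U = Fintype.card (RM U r) := by
  rw [← card_dual (M := U), ← Fintype.card_prod]
  apply Fintype.card_congr
  exact
    { toFun := fun p => ⟨p.1 + lin U p.2, (RM U r).add_mem p.1.2.1 (lin_mem hr _)⟩
      invFun := fun f => (⟨rep f.1, rep_mem hr f.2⟩, idx U f.1)
      left_inv := fun p => by
        refine Prod.ext (Subtype.ext ?_) ?_
        · exact rep_of_G0_add p.1.2 p.2
        · exact idx_of_G0_add p.1.2 p.2
      right_inv := fun f => Subtype.ext (rep_add_lin f.1) }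

/-- The number of functions of degree at most `r`. -/
theorem card_RM_le [Fintype U] (r k : ℕ) (hk : Module.finrank (ZMod 2) U = k) :
    Fintype.card (RM U r) ≤ 2 ^ (k ^ r) := by
  classical
  have hfin : Module.finrank (ZMod 2) (Module.Dual (ZMod 2) U) = k := by
    rw [Subspace.dual_finrank_eq, hk]
  let b := Module.finBasisOfFinrankEq (ZMod 2) (Module.Dual (ZMod 2) U) hfin
  let C : ((Fin r → Fin k) → ZMod 2) →ₗ[ZMod 2] (U → ZMod 2) :=
    { toFun := fun s x => ∑ t, s t * ∏ i, b (t i) x
      map_add' := fun s s' => by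
        funext x
        simp only [Pi.add_apply, add_mul, Finset.sum_add_distrib]
      map_smul' := fun a s => by
        funext x
        simp only [Pi.smul_apply, smul_eq_mul, RingHom.id_apply, Finset.mul_sum, mul_assoc] }
  have h1 : RM U r ≤ LinearMap.range C := by
    unfold RM
    rw [Submodule.span_le]
    rintro _ ⟨c, rfl⟩
    refine ⟨fun t => ∏ i, b.repr (c i) (t i), ?_⟩
    funext x
    have h2 : ∀ i, c i x = ∑ k, b.repr (c i) k * b k x := by
      intro i
      conv_lhs => rw [← b.sum_repr (c i)]
      rw [LinearMap.sum_apply]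
      rfl
    simp only [C, LinearMap.coe_mk, AddHom.coe_mk, mono, h2]
    rw [Finset.prod_univ_sum, Fintype.piFinset_univ]
    refine Finset.sum_congr rfl fun t _ => ?_
    rw [Finset.prod_mul_distrib]
  have h3 : Fintype.card (RM U r) ≤ Fintype.card (LinearMap.range C) :=
    Fintype.card_le_of_injective (Submodule.inclusion h1) (Submodule.inclusion_injective h1)
  have h4 : Fintype.card (LinearMap.range C) ≤ Fintype.card ((Fin r → Fin k) → ZMod 2) :=
    Fintype.card_le_of_surjective _ (LinearMap.surjective_rangeRestrict C)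
  refine h3.trans (h4.trans ?_)
  simp [ZMod.card]

end RM

end Pool.Agent.H92.SC
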