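import Mathlib
import Pool.Graph.R_seed8.H562R2.Walsh
import Pool.Agent.H92.SC.Basic

/-!
Few nonzero points impose independent conditions on Reed-Muller codes; moments and the level
inequality for sets of functions of low degree.
-/

set_option autoImplicit false

namespace Pool.Agent.H92.SC

open Finset Pool.Agent.H562R2

variable {U : Type} [AddCommGroup U] [Module (ZMod 2) U] [Fintype U] [DecidableEq U]

omit [DecidableEq U] in
/-- A functional which is one at a given point and at not more than half of the other ones. -/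
theorem exists_halving [DecidableEq U] (T : Finset U) (h0 : (0 : U) ∉ T) (g : U) (hg : g ∈ T) :
    ∃ c : Module.Dual (ZMod 2) U, c g = 1 ∧ 2 * (T.filter fun x => c x = 1).card ≤ T.card + 1 := by
  classical
  by_contra hcon
  push Not at hcon
  have hg0 : g ≠ 0 := fun h => h0 (h ▸ hg)
  obtain ⟨K, hK⟩ : ∃ K : ℝ, K = Fintype.card (Module.Dual (ZMod 2) U) := ⟨_, rfl⟩
  have hK0 : 0 < K := by rw [hK]; exact_mod_cast Fintype.card_pos
  have e1 : ∀ x ∈ T, ∑ c : Module.Dual (ZMod 2) U, (if c g = 1 then (1 : ℝ) else 0) *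
      (if c x = 1 then (1 : ℝ) else 0) = K / 4 * (if x = g then 2 else 1) := by
    intro x hx
    have hx0 : x ≠ 0 := fun h => h0 (h ▸ hx)
    have h1 : ∀ c : Module.Dual (ZMod 2) U, (if c g = 1 then (1 : ℝ) else 0) *
        (if c x = 1 then (1 : ℝ) else 0) =
        (1 - sgn (c g) - sgn (c x) + sgn (c (g + x))) / 4 := by
      intro c
      rw [ind_one, ind_one, map_add, sgn_add]
      ring
    simp only [h1]
    rw [← Finset.sum_div, Finset.sum_add_distrib, Finset.sum_sub_distrib, Finset.sum_sub_distrib,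
      sum_sgn_dual, sum_sgn_dual, sum_sgn_dual, if_neg hg0, if_neg hx0, Finset.sum_const,
      Finset.card_univ, nsmul_eq_mul, mul_one, ← hK]
    have h2 : g + x = 0 ↔ x = g := by
      constructor
      · intro h
        have := eq_neg_of_add_eq_zero_right h
        rw [this, m_neg]
      · rintro rfl
        exact m_add_self x
    by_cases hxg : x = g
    · rw [if_pos (h2.mpr hxg), if_pos hxg]; ring
    · rw [if_neg (fun h => hxg (h2.mp h)), if_neg hxg]; ring
  have e2 : ∑ c : Module.Dual (ZMod 2) U, (if c g = 1 then (1 : ℝ) else 0) = K / 2 := by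
    simp only [ind_one]
    rw [← Finset.sum_div, Finset.sum_sub_distrib, sum_sgn_dual, if_neg hg0, Finset.sum_const,
      Finset.card_univ, nsmul_eq_mul, mul_one, ← hK]
    ring
  have e3 : ∑ c : Module.Dual (ZMod 2) U, (if c g = 1 then (1 : ℝ) else 0) *
      (2 * ((T.filter fun x => c x = 1).card : ℝ)) = K / 2 * (T.card + 1) := by
    have h1 : ∀ c : Module.Dual (ZMod 2) U, (if c g = 1 then (1 : ℝ) else 0) *
        (2 * ((T.filter fun x => c x = 1).card : ℝ)) =
        2 * ∑ x ∈ T, (if c g = 1 then (1 : ℝ) else 0) * (if c x = 1 then (1 : ℝ) else 0) := by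
      intro c
      rw [← Finset.mul_sum, ← Finset.sum_filter, Finset.sum_const, nsmul_eq_mul, mul_one]
      ring
    simp only [h1]
    rw [← Finset.mul_sum, Finset.sum_comm, Finset.sum_congr rfl e1, ← Finset.mul_sum]
    have h2 : ∑ x ∈ T, (if x = g then (2 : ℝ) else 1) = T.card + 1 := by
      have h3 : ∀ x ∈ T, (if x = g then (2 : ℝ) else 1) = 1 + if x = g then 1 else 0 := by
        intro x _
        split_ifs <;> norm_num
      rw [Finset.sum_congr rfl h3, Finset.sum_add_distrib, Finset.sum_ite_eq' , if_pos hg]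
      simp
    rw [h2]
    ring
  have e4 : ∑ c : Module.Dual (ZMod 2) U, (if c g = 1 then (1 : ℝ) else 0) * (T.card + 2 : ℝ) ≤
      ∑ c : Module.Dual (ZMod 2) U, (if c g = 1 then (1 : ℝ) else 0) *
      (2 * ((T.filter fun x => c x = 1).card : ℝ)) := by
    refine Finset.sum_le_sum fun c _ => ?_
    split_ifs with h
    · rw [one_mul, one_mul]
      have := hcon c h
      exact_mod_cast this
    · rw [zero_mul, zero_mul]
  rw [e3, ← Finset.sum_mul, e2] at e4
  have : (0 : ℝ) < K / 2 := by positivity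
  nlinarith

/-- A product of functionals which is one at exactly one point of a small set. -/
theorem exists_isolating (r : ℕ) : ∀ (T : Finset U), (0 : U) ∉ T → T.Nonempty → T.card ≤ 2 ^ r →
    ∃ c : Fin r → Module.Dual (ZMod 2) U, (T.filter fun x => mono c x = 1).card = 1 := by
  induction r with
  | zero =>
    intro T _ hne hT
    refine ⟨Fin.elim0, ?_⟩
    have h1 : T.filter (fun x => mono (Fin.elim0 : Fin 0 → Module.Dual (ZMod 2) U) x = 1) = T := by
      rw [Finset.filter_true_of_mem]
      intro x _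
      simp [mono]
    rw [h1]
    have := hne.card_pos
    simp at hT
    omega
  | succ r ih =>
    intro T h0 hne hT
    obtain ⟨g, hg⟩ := hne
    obtain ⟨c, hc, hcT⟩ := exists_halving T h0 g hg
    obtain ⟨c', hc'⟩ := ih (T.filter fun x => c x = 1) (fun h => h0 (Finset.mem_filter.mp h).1)
      ⟨g, Finset.mem_filter.mpr ⟨hg, hc⟩⟩ (by rw [pow_succ] at hT; omega)
    refine ⟨Fin.cons c c', ?_⟩
    refine Eq.trans ?_ hc'
    rw [Finset.filter_filter]
    congr 1
    ext x
    simp only [Finset.mem_filter]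
    have h1 : mono (Fin.cons c c' : Fin (r + 1) → Module.Dual (ZMod 2) U) x = c x * mono c' x := by
      simp only [mono]
      rw [Fin.prod_univ_succ]
      simp
    rw [h1]
    rcases zcases (c x) with h | h <;> rw [h] <;> simp

/-- The bits of a function. -/
def bits (f : U → ZMod 2) : U → Bool := fun x => decide (f x = 1)

omit [Fintype U] [DecidableEq U] [AddCommGroup U] [Module (ZMod 2) U] in
theorem sg_bits (f : U → ZMod 2) (x : U) : sg (bits f x) = sgn (f x) := by
  rcases zcases (f x) with h | h <;> simp [bits, h, sg]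

omit [Fintype U] [DecidableEq U] [AddCommGroup U] [Module (ZMod 2) U] in
theorem walsh_bits (T : Finset U) (f : U → ZMod 2) : walsh T (bits f) = sgn (∑ x ∈ T, f x) := by
  classical
  induction T using Finset.induction_on with
  | empty => simp
  | @insert a s ha ih =>
    rw [Finset.sum_insert ha, sgn_add, ← ih, walsh, Finset.prod_insert ha, sg_bits, walsh]

/-- Orthogonality of the point evaluations. -/
theorem sum_walsh_RM {r : ℕ} (T : Finset U) (h0 : (0 : U) ∉ T) (hT : T.card ≤ 2 ^ r) :
    ∑ f : RM U r, walsh T (bits f.1) = if T = ∅ then (Fintype.card (RM U r) : ℝ) else 0 := by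
  split_ifs with h
  · simp [h]
  · obtain ⟨c, hc⟩ := exists_isolating r T h0 (Finset.nonempty_iff_ne_empty.mpr h) hT
    have h2 : ∑ x ∈ T, mono c x = 1 := by
      have h3 : ∀ x ∈ T, mono c x = if mono c x = 1 then 1 else 0 := by
        intro x _
        rcases zcases (mono c x) with h' | h' <;> rw [h'] <;> simp
      rw [Finset.sum_congr rfl h3, ← Finset.sum_filter, Finset.sum_const, hc]
      simp
    have h1 : ∑ f : RM U r, walsh T (bits f.1) =
        ∑ f : RM U r, walsh T (bits (f + ⟨mono c, mono_mem c⟩ : RM U r).1) :=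
      (Equiv.sum_comp (Equiv.addRight (⟨mono c, mono_mem c⟩ : RM U r))
        (fun f : RM U r => walsh T (bits f.1))).symm
    have h4 : ∀ f : RM U r, walsh T (bits (f + ⟨mono c, mono_mem c⟩ : RM U r).1) =
        - walsh T (bits f.1) := by
      intro f
      rw [walsh_bits, walsh_bits]
      have : ∑ x ∈ T, (f + ⟨mono c, mono_mem c⟩ : RM U r).1 x = ∑ x ∈ T, f.1 x + 1 := by
        rw [← h2, ← Finset.sum_add_distrib]
        rfl
      rw [this, sgn_add, sgn_one]
      ring
    simp only [h4] at h1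
    rw [Finset.sum_neg_distrib] at h1
    linarith

omit [AddCommGroup U] [Module (ZMod 2) U] in
theorem sum_walsh_cube (T : Finset U) :
    ∑ x : U → Bool, walsh T x = if T = ∅ then (2 : ℝ) ^ Fintype.card U else 0 := by
  have := walsh_orth T (∅ : Finset U)
  simpa using this

omit [Fintype U] [AddCommGroup U] [Module (ZMod 2) U] in
theorem walsh_mul (S T : Finset U) (x : U → Bool) :
    walsh S x * walsh T x = walsh (symmDiff S T) x := by
  have h1 : ∀ A B : Finset U, Disjoint A B → walsh (A ∪ B) x = walsh A x * walsh B x := by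
    intro A B h
    rw [walsh, walsh, walsh, Finset.prod_union h]
  have hS : S = (S \ T) ∪ (S ∩ T) := by
    ext a; simp only [Finset.mem_union, Finset.mem_sdiff, Finset.mem_inter]; tauto
  have hT : T = (T \ S) ∪ (S ∩ T) := by
    ext a; simp only [Finset.mem_union, Finset.mem_sdiff, Finset.mem_inter]; tauto
  have d1 : Disjoint (S \ T) (S ∩ T) := by
    rw [Finset.disjoint_left]; intro a; simp only [Finset.mem_sdiff, Finset.mem_inter]; tauto
  have d2 : Disjoint (T \ S) (S ∩ T) := by
    rw [Finset.disjoint_left]; intro a; simp only [Finset.mem_sdiff, Finset.mem_inter]; tauto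
  have d3 : Disjoint (S \ T) (T \ S) := by
    rw [Finset.disjoint_left]; intro a; simp only [Finset.mem_sdiff]; tauto
  have e : symmDiff S T = (S \ T) ∪ (T \ S) := rfl
  have e1 : walsh S x = walsh (S \ T) x * walsh (S ∩ T) x := by
    conv_lhs => rw [hS]
    exact h1 _ _ d1
  have e2 : walsh T x = walsh (T \ S) x * walsh (S ∩ T) x := by
    conv_lhs => rw [hT]
    exact h1 _ _ d2
  rw [e, h1 _ _ d3, e1, e2]
  have := walsh_mul_self (S ∩ T) x
  linear_combination (walsh (S \ T) x * walsh (T \ S) x) * this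

/-- Combinations of Walsh functions of at most `k` nonzero points. -/
def Low (k : ℕ) (G : (U → Bool) → ℝ) : Prop :=
  ∃ (I : Type) (_ : Fintype I) (c : I → ℝ) (T : I → Finset U),
    (∀ i, (T i).card ≤ k ∧ (0 : U) ∉ T i) ∧ ∀ x, G x = ∑ i, c i * walsh (T i) x

omit [Fintype U] [Module (ZMod 2) U] in
theorem Low.mul {k l : ℕ} {F G : (U → Bool) → ℝ} (hF : Low k F) (hG : Low l G) :
    Low (k + l) (fun x => F x * G x) := by
  obtain ⟨I, _, c, S, hS, hF⟩ := hF
  obtain ⟨J, _, d, T, hT, hG⟩ := hG
  refine ⟨I × J, inferInstance, fun p => c p.1 * d p.2, fun p => symmDiff (S p.1) (T p.2), ?_, ?_⟩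
  · intro p
    refine ⟨?_, ?_⟩
    · have h1 : symmDiff (S p.1) (T p.2) ⊆ S p.1 ∪ T p.2 := by
        intro a ha
        rw [Finset.mem_symmDiff] at ha
        rw [Finset.mem_union]
        tauto
      exact (Finset.card_le_card h1).trans ((Finset.card_union_le _ _).trans
        (add_le_add (hS _).1 (hT _).1))
    · rw [Finset.mem_symmDiff]
      have := (hS p.1).2
      have := (hT p.2).2
      tauto
  · intro x
    simp only
    rw [hF, hG, Finset.sum_mul_sum, ← Finset.univ_product_univ, Finset.sum_product]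
    refine Finset.sum_congr rfl fun i _ => Finset.sum_congr rfl fun j _ => ?_
    rw [← walsh_mul]
    ring

/-- Averages over the code and over the cube agree. -/
theorem Low.avg {r k : ℕ} (hk : k ≤ 2 ^ r) {G : (U → Bool) → ℝ} (hG : Low k G) :
    (∑ f : RM U r, G (bits f.1)) / Fintype.card (RM U r) =
      (∑ x, G x) / 2 ^ Fintype.card U := by
  obtain ⟨I, _, c, T, hT, hG⟩ := hG
  have h0 : (Fintype.card (RM U r) : ℝ) ≠ 0 := by exact_mod_cast Fintype.card_ne_zero
  have h0' : (2 : ℝ) ^ Fintype.card U ≠ 0 := by positivity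
  simp only [hG]
  rw [Finset.sum_comm, Finset.sum_comm (s := (Finset.univ : Finset (U → Bool)))]
  simp only [← Finset.mul_sum, sum_walsh_cube]
  have : ∀ i, ∑ f : RM U r, walsh (T i) (bits f.1) =
      if T i = ∅ then (Fintype.card (RM U r) : ℝ) else 0 := fun i =>
    sum_walsh_RM (T i) (hT i).2 ((hT i).1.trans hk)
  simp only [this]
  rw [Finset.sum_div, Finset.sum_div]
  refine Finset.sum_congr rfl fun i _ => ?_
  split_ifs
  · field_simp
  · simp

/-- Sets of at most `D` nonzero points. -/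
def lowSets (U : Type) [AddCommGroup U] [Fintype U] [DecidableEq U] (D : ℕ) : Finset (Finset U) :=
  Finset.univ.filter fun T => T.card ≤ D ∧ (0 : U) ∉ T

omit [Module (ZMod 2) U] in
theorem mem_lowSets {D : ℕ} {T : Finset U} : T ∈ lowSets U D ↔ T.card ≤ D ∧ (0 : U) ∉ T := by
  simp [lowSets]

/-- Fourth moments of low degree polynomials on the code. -/
theorem fourth_moment {r D : ℕ} (hD : 4 * D ≤ 2 ^ r) (c : Finset U → ℝ) :
    (∑ f : RM U r, (∑ T ∈ lowSets U D, c T * walsh T (bits f.1)) ^ 4) / Fintype.card (RM U r) ≤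
      (3 ^ D * ∑ T ∈ lowSets U D, c T ^ 2) ^ 2 := by
  classical
  set F : (U → Bool) → ℝ := fun x => ∑ T ∈ lowSets U D, c T * walsh T x with hF
  have hlow : Low D F := by
    refine ⟨lowSets U D, inferInstance, fun T => c T.1, fun T => T.1, ?_, ?_⟩
    · intro T
      exact mem_lowSets.mp T.2
    · intro x
      rw [hF]
      simp only
      rw [← Finset.sum_coe_sort (lowSets U D)]
  have h4 : Low (D + D + (D + D)) (fun x => (F x * F x) * (F x * F x)) :=
    (hlow.mul hlow).mul (hlow.mul hlow)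
  have h1 := h4.avg (r := r) (by omega)
  have h2 : ∀ x, F x ^ 4 = (F x * F x) * (F x * F x) := fun x => by ring
  have h3 : (∑ f : RM U r, F (bits f.1) ^ 4) / Fintype.card (RM U r) =
      (∑ x, F x ^ 4) / 2 ^ Fintype.card U := by
    simp only [h2]
    exact h1
  change (∑ f : RM U r, F (bits f.1) ^ 4) / Fintype.card (RM U r) ≤ _
  rw [h3]
  obtain ⟨ρ, hρ⟩ : ∃ ρ : ℝ, ρ ^ 2 = 1 / 3 := ⟨Real.sqrt (1 / 3), Real.sq_sqrt (by norm_num)⟩
  have hρ0 : ρ ≠ 0 := by
    intro h
    rw [h] at hρ
    norm_num at hρ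
  have h5 := bonami ρ hρ (Finset.univ : Finset U)
    (fun T => if T ∈ lowSets U D then (ρ ^ T.card)⁻¹ * c T else 0)
  have h6 : ∀ x, wpoly ρ (fun T => if T ∈ lowSets U D then (ρ ^ T.card)⁻¹ * c T else 0)
      Finset.univ x = F x := by
    intro x
    rw [wpoly, Finset.powerset_univ, hF]
    simp only
    rw [← Finset.sum_filter_add_sum_filter_not _ (fun T => T ∈ lowSets U D)]
    rw [Finset.filter_mem_eq_inter, Finset.univ_inter]
    rw [Finset.sum_congr rfl (g := fun T => c T * walsh T x)]
    · rw [add_eq_left]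
      apply Finset.sum_eq_zero
      intro T hT
      rw [Finset.mem_filter] at hT
      simp [hT.2]
    · intro T hT
      rw [if_pos hT]
      have : ρ ^ T.card ≠ 0 := pow_ne_zero _ hρ0
      field_simp
  simp only [h6] at h5
  refine h5.trans ?_
  have h7 : ∑ T ∈ (Finset.univ : Finset U).powerset,
      (if T ∈ lowSets U D then (ρ ^ T.card)⁻¹ * c T else 0) ^ 2 ≤
      3 ^ D * ∑ T ∈ lowSets U D, c T ^ 2 := by
    rw [Finset.powerset_univ, Finset.mul_sum]
    rw [← Finset.sum_filter_add_sum_filter_not _ (fun T => T ∈ lowSets U D),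
      Finset.filter_mem_eq_inter, Finset.univ_inter]
    have h8 : ∑ T ∈ Finset.univ with T ∉ lowSets U D,
        (if T ∈ lowSets U D then (ρ ^ T.card)⁻¹ * c T else 0) ^ 2 = 0 := by
      apply Finset.sum_eq_zero
      intro T hT
      rw [Finset.mem_filter] at hT
      simp [hT.2]
    rw [h8, add_zero]
    refine Finset.sum_le_sum fun T hT => ?_
    rw [if_pos hT, mul_pow]
    apply mul_le_mul_of_nonneg_right _ (sq_nonneg _)
    have h9 : ((ρ ^ T.card)⁻¹) ^ 2 = 3 ^ T.card := by
      rw [inv_pow, ← pow_mul, mul_comm, pow_mul, hρ, one_div, inv_pow, inv_inv]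
    rw [h9]
    exact pow_le_pow_right₀ (by norm_num) (mem_lowSets.mp hT).1
  exact pow_le_pow_left₀ (Finset.sum_nonneg fun _ _ => sq_nonneg _) h7 2

/-- Level inequality for sets of functions of degree at most `r`: the weight of the indicator
function of a set of density `μ` on the evaluation characters of at most `D` points is at most
`3 ^ D μ ^ (3/2)`. -/
theorem level {r D : ℕ} (hD : 4 * D ≤ 2 ^ r) (f : RM U r → ℝ) (hf : ∀ z, f z = 0 ∨ f z = 1) :
    (∑ T ∈ lowSets U D, ((∑ z : RM U r, f z * walsh T (bits z.1)) /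
      Fintype.card (RM U r)) ^ 2) ^ 2 ≤
      9 ^ D * ((∑ z, f z) / Fintype.card (RM U r)) ^ 3 := by
  classical
  set K : ℝ := ((Fintype.card (RM U r) : ℕ) : ℝ) with hK
  have hK0 : 0 < K := by rw [hK]; exact_mod_cast Fintype.card_pos
  set c : Finset U → ℝ := fun T => (∑ z : RM U r, f z * walsh T (bits z.1)) / K with hc
  set W : ℝ := ∑ T ∈ lowSets U D, c T ^ 2 with hW
  change W ^ 2 ≤ _
  have hW0 : 0 ≤ W := Finset.sum_nonneg fun _ _ => sq_nonneg _
  set u : RM U r → ℝ := fun z => ∑ T ∈ lowSets U D, c T * walsh T (bits z.1) with hu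
  have hu4 : (∑ z, u z ^ 4) / K ≤ (3 ^ D * W) ^ 2 := fourth_moment hD c
  have hfu : (∑ z, f z * u z) / K = W := by
    simp only [hu, Finset.mul_sum]
    rw [Finset.sum_comm, Finset.sum_div, hW]
    refine Finset.sum_congr rfl fun T _ => ?_
    have : ∀ z : RM U r, f z * (c T * walsh T (bits z.1)) =
        c T * (f z * walsh T (bits z.1)) := fun z => by ring
    simp only [this]
    rw [← Finset.mul_sum, mul_div_assoc, sq]
  have hff : ∀ x, f x * f x = f x := by
    intro x; rcases hf x with h | h <;> rw [h] <;> norm_num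
  set m : ℝ := (∑ x, f x) / K with hm
  have hf0 : ∀ x, 0 ≤ f x := by
    intro x; rcases hf x with h | h <;> rw [h]; norm_num
  have hm0 : 0 ≤ m := div_nonneg (Finset.sum_nonneg fun x _ => hf0 x) hK0.le
  have hA : W ^ 2 ≤ m * ((∑ x, f x * u x ^ 2) / K) := by
    have h1 := Finset.sum_mul_sq_le_sq_mul_sq Finset.univ f (fun x => f x * u x)
    have e1 : ∑ x, f x * (f x * u x) = ∑ x, f x * u x :=
      Finset.sum_congr rfl fun x _ => by rw [← mul_assoc, hff]
    have e2 : ∑ x, f x ^ 2 = ∑ x, f x := Finset.sum_congr rfl fun x _ => by rw [sq, hff]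
    have e3 : ∑ x, (f x * u x) ^ 2 = ∑ x, f x * u x ^ 2 :=
      Finset.sum_congr rfl fun x _ => by rw [mul_pow, sq (f x), hff]
    rw [e1, e2, e3] at h1
    rw [← hfu, hm, div_pow, div_mul_div_comm, ← sq]
    gcongr
  have hB : ((∑ x, f x * u x ^ 2) / K) ^ 2 ≤ m * (3 ^ D * W) ^ 2 := by
    have h1 := Finset.sum_mul_sq_le_sq_mul_sq Finset.univ f (fun x => f x * u x ^ 2)
    have e1 : ∑ x, f x * (f x * u x ^ 2) = ∑ x, f x * u x ^ 2 :=
      Finset.sum_congr rfl fun x _ => by rw [← mul_assoc, hff]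
    have e2 : ∑ x, f x ^ 2 = ∑ x, f x := Finset.sum_congr rfl fun x _ => by rw [sq, hff]
    have e3 : ∑ x, (f x * u x ^ 2) ^ 2 ≤ ∑ x, u x ^ 4 := by
      refine Finset.sum_le_sum fun x _ => ?_
      rcases hf x with h | h <;> rw [h]
      · have : 0 ≤ u x ^ 4 := by positivity
        simpa using this
      · apply le_of_eq; ring
    rw [e1, e2] at h1
    calc ((∑ x, f x * u x ^ 2) / K) ^ 2 = (∑ x, f x * u x ^ 2) ^ 2 / K ^ 2 := by rw [div_pow]
      _ ≤ ((∑ x, f x) * ∑ x, u x ^ 4) / K ^ 2 := by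
          gcongr
          exact h1.trans (mul_le_mul_of_nonneg_left e3
            (Finset.sum_nonneg fun x _ => hf0 x))
      _ = m * ((∑ x, u x ^ 4) / K) := by rw [hm, sq, mul_div_mul_comm]
      _ ≤ m * (3 ^ D * W) ^ 2 := mul_le_mul_of_nonneg_left hu4 hm0
  set Z : ℝ := (∑ x, f x * u x ^ 2) / K with hZ
  have h9 : ((3 : ℝ) ^ D) ^ 2 = 9 ^ D := by
    rw [← pow_mul, mul_comm, pow_mul]; norm_num
  have hfin : W ^ 2 * W ^ 2 ≤ (9 ^ D * m ^ 3) * W ^ 2 := by
    calc W ^ 2 * W ^ 2 ≤ (m * Z) * (m * Z) :=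
          mul_le_mul hA hA (sq_nonneg _) (le_trans (sq_nonneg _) hA)
      _ = m ^ 2 * Z ^ 2 := by ring
      _ ≤ m ^ 2 * (m * (3 ^ D * W) ^ 2) := mul_le_mul_of_nonneg_left hB (sq_nonneg _)
      _ = (((3 : ℝ) ^ D) ^ 2 * m ^ 3) * W ^ 2 := by ring
      _ = _ := by rw [h9]
  rcases eq_or_lt_of_le (sq_nonneg W) with hz | hpos
  · rw [← hz]; positivity
  · exact le_of_mul_le_mul_right hfin hpos

end Pool.Agent.H92.SC
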