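import Mathlib
import Pool.Agent.H92.SC.Indep

/-!
Functionals on Reed-Muller codes which are not sums of few evaluations are killed by restrictions
to random graphs.
-/

set_option autoImplicit false

namespace Pool.Agent.H92.SC

open Finset

section

variable {U : Type} [AddCommGroup U] [Module (ZMod 2) U] {r : ℕ}

theorem mono_update (c : Fin r → Module.Dual (ZMod 2) U) (i : Fin r)
    (a : Module.Dual (ZMod 2) U) (x : U) :
    mono (Function.update c i a) x = a x * ∏ k ∈ Finset.univ \ {i}, c k x := by
  have h : (fun k => Function.update c i a k x) = Function.update (fun k => c k x) i (a x) := by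
    funext k
    by_cases hk : k = i
    · subst hk; simp
    · simp [hk]
  rw [mono, Finset.prod_congr rfl fun k _ => congrFun h k]
  exact Finset.prod_update_of_mem (Finset.mem_univ i) _ _

theorem mono_update_add (c : Fin r → Module.Dual (ZMod 2) U) (i : Fin r)
    (a b : Module.Dual (ZMod 2) U) :
    mono (Function.update c i (a + b)) =
      mono (Function.update c i a) + mono (Function.update c i b) := by
  funext x
  rw [Pi.add_apply, mono_update, mono_update, mono_update, LinearMap.add_apply, add_mul]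

theorem mono_update_smul (c : Fin r → Module.Dual (ZMod 2) U) (i : Fin r) (t : ZMod 2)
    (a : Module.Dual (ZMod 2) U) :
    mono (Function.update c i (t • a)) = t • mono (Function.update c i a) := by
  funext x
  rw [Pi.smul_apply, mono_update, mono_update, LinearMap.smul_apply, smul_eq_mul, smul_eq_mul,
    mul_assoc]

/-- The code word of a product of functionals. -/
def cw (c : Fin r → Module.Dual (ZMod 2) U) : RM U r := ⟨mono c, mono_mem c⟩

/-- The functionals `a` such that a functional on the code vanishes on all products with the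
factor `a`. -/
def ZZ (φ : Module.Dual (ZMod 2) (RM U r)) : Submodule (ZMod 2) (Module.Dual (ZMod 2) U) where
  carrier := {a | ∀ (c : Fin r → Module.Dual (ZMod 2) U) (i : Fin r),
    φ (cw (Function.update c i a)) = 0}
  add_mem' := by
    intro a b ha hb c i
    have : cw (Function.update c i (a + b)) =
        cw (Function.update c i a) + cw (Function.update c i b) :=
      Subtype.ext (mono_update_add c i a b)
    rw [this, map_add, ha c i, hb c i, add_zero]
  zero_mem' := by
    intro c i
    have : cw (Function.update c i (0 : Module.Dual (ZMod 2) U)) = 0 := by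
      apply Subtype.ext
      funext x
      change mono (Function.update c i (0 : Module.Dual (ZMod 2) U)) x = 0
      rw [mono_update]
      simp
    rw [this, map_zero]
  smul_mem' := by
    intro t a ha c i
    have : cw (Function.update c i (t • a)) = t • cw (Function.update c i a) :=
      Subtype.ext (mono_update_smul c i t a)
    rw [this, map_smul, ha c i, smul_zero]

theorem mem_ZZ (φ : Module.Dual (ZMod 2) (RM U r)) (a : Module.Dual (ZMod 2) U) :
    a ∈ ZZ φ ↔ ∀ (c : Fin r → Module.Dual (ZMod 2) U) (i : Fin r),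
      φ (cw (Function.update c i a)) = 0 := Iff.rfl

theorem ZZ_sub (φ : Module.Dual (ZMod 2) (RM U r)) (c : Fin r → Module.Dual (ZMod 2) U)
    (i : Fin r) (a : Module.Dual (ZMod 2) U) (ha : c i - a ∈ ZZ φ) :
    φ (cw (Function.update c i a)) = φ (cw c) := by
  have h1 : cw c = cw (Function.update c i (c i - a)) + cw (Function.update c i a) := by
    apply Subtype.ext
    change mono c = mono _ + mono _
    rw [← mono_update_add, sub_add_cancel, Function.update_eq_self]
  rw [h1, map_add, ha c i, zero_add]

/-- Composition with a linear map modulo the functionals in `ZZ`. -/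
theorem phi_comp (φ : Module.Dual (ZMod 2) (RM U r)) (q : U →ₗ[ZMod 2] U)
    (hq : ∀ a : Module.Dual (ZMod 2) U, a - a ∘ₗ q ∈ ZZ φ)
    (c : Fin r → Module.Dual (ZMod 2) U) : φ (cw fun i => c i ∘ₗ q) = φ (cw c) := by
  classical
  have key : ∀ s : Finset (Fin r), φ (cw fun i => if i ∈ s then c i ∘ₗ q else c i) = φ (cw c) := by
    intro s
    induction s using Finset.induction_on with
    | empty => simp
    | @insert i s hi ih =>
      rw [← ih]
      have h1 : (fun k => if k ∈ insert i s then c k ∘ₗ q else c k) =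
          Function.update (fun k => if k ∈ s then c k ∘ₗ q else c k) i (c i ∘ₗ q) := by
        funext k
        by_cases hk : k = i
        · subst hk; simp
        · simp [hk, Finset.mem_insert]
      rw [h1]
      apply ZZ_sub
      simp only [hi, if_false]
      exact hq (c i)
  have := key Finset.univ
  simpa using this

/-- Functionals with a large space `ZZ` are sums of few evaluations. -/
theorem low_of_small [Fintype U] [DecidableEq U] (hr : 1 ≤ r) (D : ℕ)
    (φ : Module.Dual (ZMod 2) (RM U r))
    (hW : Nat.card (ZZ φ).dualCoannihilator ≤ D + 1) :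
    ∃ T ∈ lowSets U D, ∀ z : RM U r, φ z = ∑ x ∈ T, z.1 x := by
  classical
  set W := (ZZ φ).dualCoannihilator with hWdef
  obtain ⟨p, hp⟩ := LinearMap.exists_leftInverse_of_injective W.subtype
    (LinearMap.ker_eq_bot.mpr W.injective_subtype)
  set q : U →ₗ[ZMod 2] U := W.subtype ∘ₗ p with hqdef
  have hpW : ∀ w : W, p w.1 = w := fun w => LinearMap.congr_fun hp w
  have hq : ∀ a : Module.Dual (ZMod 2) U, a - a ∘ₗ q ∈ ZZ φ := by
    intro a
    rw [← Subspace.dualCoannihilator_dualAnnihilator_eq (W := ZZ φ), ← hWdef,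
      Submodule.mem_dualAnnihilator]
    intro w hw
    have : q w = w := by
      rw [hqdef, LinearMap.comp_apply]
      exact congrArg Subtype.val (hpW ⟨w, hw⟩)
    rw [LinearMap.sub_apply, LinearMap.comp_apply, this, sub_self]
  -- `φ z = φ (z ∘ q)`
  have h1 : ∀ z : RM U r, ∀ h : (fun y => z.1 (q y)) ∈ RM U r, φ ⟨_, h⟩ = φ z := by
    rintro ⟨z, hz⟩
    have hz' := hz
    unfold RM at hz'
    induction hz' using Submodule.span_induction with
    | mem x hx =>
      obtain ⟨c, rfl⟩ := hx
      intro h
      exact phi_comp φ q hq c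
    | zero =>
      intro h
      have e1 : (⟨fun y => (0 : U → ZMod 2) (q y), h⟩ : RM U r) = 0 := Subtype.ext rfl
      have e2 : (⟨(0 : U → ZMod 2), hz⟩ : RM U r) = 0 := Subtype.ext rfl
      rw [e1, e2]
    | add x y hx hy ihx ihy =>
      intro h
      have e1 := ihx hx (RM_comp q hx)
      have e2 := ihy hy (RM_comp q hy)
      have e3 : (⟨fun t => (x + y) (q t), h⟩ : RM U r) =
          ⟨fun t => x (q t), RM_comp q hx⟩ + ⟨fun t => y (q t), RM_comp q hy⟩ := Subtype.ext rfl
      have e4 : (⟨x + y, hz⟩ : RM U r) = ⟨x, hx⟩ + ⟨y, hy⟩ := Subtype.ext rfl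
      rw [e3, e4, map_add, map_add]
      exact congrArg₂ (· + ·) e1 e2
    | smul a x hx ihx =>
      intro h
      have e1 := ihx hx (RM_comp q hx)
      have e3 : (⟨fun t => (a • x) (q t), h⟩ : RM U r) =
          a • ⟨fun t => x (q t), RM_comp q hx⟩ := Subtype.ext rfl
      have e4 : (⟨a • x, hz⟩ : RM U r) = a • ⟨x, hx⟩ := Subtype.ext rfl
      rw [e3, e4, map_smul, map_smul]
      exact congrArg (a • ·) e1
  -- evaluations at the points of `W`
  let L : W → (RM U r →ₗ[ZMod 2] ZMod 2) := fun w =>
    (LinearMap.proj w.1 : (U → ZMod 2) →ₗ[ZMod 2] ZMod 2) ∘ₗ (RM U r).subtype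
  have h2 : ⨅ w, LinearMap.ker (L w) ≤ LinearMap.ker φ := by
    intro z hz
    rw [Submodule.mem_iInf] at hz
    have hz' : ∀ w : W, z.1 w.1 = 0 := fun w => LinearMap.mem_ker.mp (hz w)
    rw [LinearMap.mem_ker, ← h1 z (RM_comp q z.2)]
    have : (⟨fun y => z.1 (q y), RM_comp q z.2⟩ : RM U r) = 0 := by
      apply Subtype.ext
      funext y
      exact hz' (p y)
    rw [this, map_zero]
  obtain ⟨lam, hlam⟩ := (Submodule.mem_span_range_iff_exists_fun (ZMod 2)).mp
    (mem_span_of_iInf_ker_le_ker h2)
  have h3 : ∀ z : RM U r, φ z = ∑ w : W, lam w * z.1 w.1 := by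
    intro z
    rw [← hlam, LinearMap.sum_apply]
    rfl
  refine ⟨(Finset.univ.filter fun w : W => lam w = 1 ∧ w ≠ 0).map
    (Function.Embedding.subtype _), ?_, ?_⟩
  · rw [mem_lowSets]
    constructor
    · rw [Finset.card_map]
      have h4 : (Finset.univ.filter fun w : W => lam w = 1 ∧ w ≠ 0) ⊆ Finset.univ.erase 0 := by
        intro w hw
        rw [Finset.mem_filter] at hw
        rw [Finset.mem_erase]
        exact ⟨hw.2.2, Finset.mem_univ _⟩
      have h5 := Finset.card_le_card h4
      rw [Finset.card_erase_of_mem (Finset.mem_univ _), Finset.card_univ] at h5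
      rw [Nat.card_eq_fintype_card] at hW
      omega
    · intro h
      rw [Finset.mem_map] at h
      obtain ⟨w, hw, hw0⟩ := h
      rw [Finset.mem_filter] at hw
      exact hw.2.2 (Subtype.ext hw0)
  · intro z
    rw [h3, Finset.sum_map, Finset.sum_filter]
    refine Finset.sum_congr rfl fun w _ => ?_
    rcases zcases (lam w) with h | h
    · simp [h]
    · by_cases hw : w = 0
      · subst hw
        have : z.1 ((0 : W) : U) = 0 := RM_zero hr z.2
        rw [this, mul_zero]
        simp
      · simp [h, hw]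

end

section

variable {Y : Type} [AddCommGroup Y] [Module (ZMod 2) Y] {j r : ℕ}

/-- The space `F_2 ^ j × Y`. -/
abbrev UU (j : ℕ) (Y : Type) : Type := (Fin j → ZMod 2) × Y

/-- The graph of a linear map `Y → F_2 ^ j`. -/
def gr (A : Fin j → Module.Dual (ZMod 2) Y) : Y →ₗ[ZMod 2] UU j Y :=
  (LinearMap.pi A).prod LinearMap.id

theorem gr_apply (A : Fin j → Module.Dual (ZMod 2) Y) (y : Y) :
    gr A y = (fun i => A i y, y) := rfl

/-- The equations of the graph. -/
def eqn (A : Fin j → Module.Dual (ZMod 2) Y) (i : Fin j) : Module.Dual (ZMod 2) (UU j Y) :=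
  (LinearMap.proj i : (Fin j → ZMod 2) →ₗ[ZMod 2] ZMod 2).coprod (A i)

theorem eqn_apply (A : Fin j → Module.Dual (ZMod 2) Y) (i : Fin j) (x : UU j Y) :
    eqn A i x = x.1 i + A i x.2 := by
  rw [eqn, LinearMap.coprod_apply]
  rfl

theorem eqn_gr (A : Fin j → Module.Dual (ZMod 2) Y) (i : Fin j) (y : Y) :
    eqn A i (gr A y) = 0 := by
  rw [eqn_apply, gr_apply]
  exact z_add_self _

/-- The number of graphs with equations in a given space. -/
theorem count_graphs [Fintype Y] (Z : Submodule (ZMod 2) (Module.Dual (ZMod 2) (UU j Y))) :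
    Nat.card {A : Fin j → Module.Dual (ZMod 2) Y // ∀ i, eqn A i ∈ Z} * 2 ^ (j * j) ≤
      Nat.card Z ^ j := by
  classical
  rcases isEmpty_or_nonempty {A : Fin j → Module.Dual (ZMod 2) Y // ∀ i, eqn A i ∈ Z} with h | h
  · simp
  · obtain ⟨A0, hA0⟩ := h
    have e1 : Nat.card (Fin j → Fin j → ZMod 2) = 2 ^ (j * j) := by
      rw [Nat.card_eq_fintype_card]
      simp [ZMod.card, pow_mul]
    have e2 : Nat.card (Fin j → Z) = Nat.card Z ^ j := by
      rw [Nat.card_fun, Nat.card_eq_fintype_card (α := Fin j), Fintype.card_fin]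
    rw [← e1, ← e2, ← Nat.card_prod]
    let F : {A : Fin j → Module.Dual (ZMod 2) Y // ∀ i, eqn A i ∈ Z} × (Fin j → Fin j → ZMod 2) →
        (Fin j → Z) := fun P i =>
      ⟨eqn P.1.1 i + ∑ k, P.2 i k • eqn A0 k,
        Z.add_mem (P.1.2 i) (Z.sum_mem fun k _ => Z.smul_mem _ (hA0 k))⟩
    apply Nat.card_le_card_of_injective F
    intro P Q h
    have h1 : ∀ i (x : UU j Y), eqn P.1.1 i x + ∑ k, P.2 i k * eqn A0 k x =
        eqn Q.1.1 i x + ∑ k, Q.2 i k * eqn A0 k x := by
      intro i x
      have h2 := congrArg (fun G : Fin j → Z => (G i).1 x) h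
      simpa [F, LinearMap.sum_apply] using h2
    have h2 : P.2 = Q.2 := by
      funext i k
      have h3 := h1 i (Pi.single k 1, 0)
      simp only [eqn_apply, map_zero, add_zero] at h3
      have h4 := add_left_cancel h3
      have h5 : ∀ s : Fin j → ZMod 2, ∑ l, s l * (Pi.single k 1 : Fin j → ZMod 2) l = s k := by
        intro s
        rw [Finset.sum_eq_single k]
        · rw [Pi.single_eq_same, mul_one]
        · intro l _ hl
          rw [Pi.single_eq_of_ne hl, mul_zero]
        · intro hk
          exact absurd (Finset.mem_univ k) hk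
      rw [h5, h5] at h4
      exact h4
    refine Prod.ext (Subtype.ext ?_) h2
    funext i
    ext y
    have h3 := h1 i (0, y)
    rw [h2] at h3
    have h4 := add_right_cancel h3
    rw [eqn_apply, eqn_apply] at h4
    exact add_left_cancel h4

/-- Few graphs have all their equations in `ZZ φ`, unless `φ` is a sum of few evaluations. -/
theorem count_high [Fintype Y] [DecidableEq Y] (hr : 1 ≤ r) (D : ℕ)
    (φ : Module.Dual (ZMod 2) (RM (UU j Y) r))
    (hφ : ¬ ∃ T ∈ lowSets (UU j Y) D, ∀ z : RM (UU j Y) r, φ z = ∑ x ∈ T, z.1 x) :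
    Nat.card {A : Fin j → Module.Dual (ZMod 2) Y // ∀ i, eqn A i ∈ ZZ φ} * (D + 2) ^ j ≤
      Nat.card (Fin j → Module.Dual (ZMod 2) Y) := by
  classical
  have h1 : D + 2 ≤ Nat.card (ZZ φ).dualCoannihilator := by
    by_contra hcon
    exact hφ (low_of_small hr D φ (by omega))
  have h2 : Nat.card (ZZ φ) * Nat.card (ZZ φ).dualCoannihilator = Nat.card (UU j Y) := by
    have h3 := Subspace.finrank_add_finrank_dualCoannihilator_eq (ZZ φ)
    rw [Module.natCard_eq_pow_finrank (K := ZMod 2) (V := ZZ φ),
      Module.natCard_eq_pow_finrank (K := ZMod 2) (V := (ZZ φ).dualCoannihilator),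
      Module.natCard_eq_pow_finrank (K := ZMod 2) (V := UU j Y), ← pow_add, h3]
  have h4 := count_graphs (ZZ φ)
  have h5 : Nat.card (UU j Y) = 2 ^ j * Nat.card Y := by
    rw [Nat.card_prod, Nat.card_fun, Nat.card_eq_fintype_card (α := ZMod 2), ZMod.card,
      Nat.card_eq_fintype_card (α := Fin j), Fintype.card_fin]
  have h6 : Nat.card (Fin j → Module.Dual (ZMod 2) Y) = Nat.card Y ^ j := by
    rw [Nat.card_fun, Nat.card_eq_fintype_card (α := Fin j), Fintype.card_fin,
      Nat.card_eq_fintype_card, card_dual, Nat.card_eq_fintype_card]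
  rw [h6]
  have h7 : Nat.card {A : Fin j → Module.Dual (ZMod 2) Y // ∀ i, eqn A i ∈ ZZ φ} * (D + 2) ^ j *
      2 ^ (j * j) ≤ Nat.card Y ^ j * 2 ^ (j * j) := by
    calc _ = (Nat.card {A : Fin j → Module.Dual (ZMod 2) Y // ∀ i, eqn A i ∈ ZZ φ} *
          2 ^ (j * j)) * (D + 2) ^ j := by ring
      _ ≤ Nat.card (ZZ φ) ^ j * Nat.card (ZZ φ).dualCoannihilator ^ j :=
          Nat.mul_le_mul h4 (Nat.pow_le_pow_left h1 j)
      _ = (2 ^ j * Nat.card Y) ^ j := by rw [← mul_pow, h2, h5]
      _ = _ := by rw [mul_pow, ← pow_mul, mul_comm]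
  exact Nat.le_of_mul_le_mul_right h7 (by positivity)

end

end Pool.Agent.H92.SC
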