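import Mathlib
import Pool.Agent.H92.SC.High

/-!
Agreement of labelled functions with their restrictions to random graphs.
-/

set_option autoImplicit false

namespace Pool.Agent.H92.SC

open Finset Pool.Agent.H562R2

/-- Parseval for a family of elements of a finite module. -/
theorem parseval_family {M ι : Type} [AddCommGroup M] [Module (ZMod 2) M] [Fintype M]
    [DecidableEq M] [Fintype ι] (t : ι → M) :
    ∑ ψ : Module.Dual (ZMod 2) M, (∑ f, sgn (ψ (t f))) ^ 2 =
      (Fintype.card M : ℝ) * ∑ y, ((Finset.univ.filter fun f => t f = y).card : ℝ) ^ 2 := by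
  classical
  have h1 : ∀ ψ : Module.Dual (ZMod 2) M, (∑ f, sgn (ψ (t f))) ^ 2 =
      ∑ f, ∑ f', sgn (ψ (t f + t f')) := by
    intro ψ
    rw [sq, Finset.sum_mul_sum]
    refine Finset.sum_congr rfl fun f _ => Finset.sum_congr rfl fun f' _ => ?_
    rw [map_add, sgn_add]
  simp only [h1]
  rw [Finset.sum_comm]
  have h2 : ∀ f, ∑ ψ : Module.Dual (ZMod 2) M, ∑ f', sgn (ψ (t f + t f')) =
      (Fintype.card M : ℝ) * ((Finset.univ.filter fun f' => t f' = t f).card : ℝ) := by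
    intro f
    rw [Finset.sum_comm]
    simp only [sum_sgn_dual, card_dual]
    rw [← Finset.sum_filter, Finset.sum_const, nsmul_eq_mul, mul_comm]
    congr 3
    ext f'
    simp only [Finset.mem_filter, Finset.mem_univ, true_and]
    constructor
    · intro h
      have := eq_neg_of_add_eq_zero_right h
      rw [this, m_neg]
    · intro h
      rw [h]
      exact m_add_self _
  simp only [h2]
  rw [← Finset.mul_sum]
  congr 1
  rw [← Finset.sum_fiberwise (s := Finset.univ) (g := t)]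
  refine Finset.sum_congr rfl fun y _ => ?_
  rw [sq, ← nsmul_eq_mul, ← Finset.sum_const]
  refine Finset.sum_congr rfl fun f hf => ?_
  rw [Finset.mem_filter] at hf
  rw [hf.2]

section

variable {Y : Type} [AddCommGroup Y] [Module (ZMod 2) Y] {j r : ℕ}

/-- Restriction to a graph. -/
def resL (A : Fin j → Module.Dual (ZMod 2) Y) : RM (UU j Y) r →ₗ[ZMod 2] RM Y r where
  toFun z := ⟨fun y => z.1 (gr A y), RM_comp (gr A) z.2⟩
  map_add' _ _ := rfl
  map_smul' _ _ := rfl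

theorem resL_val (A : Fin j → Module.Dual (ZMod 2) Y) (z : RM (UU j Y) r) (y : Y) :
    (resL A z).1 y = z.1 (gr A y) := rfl

theorem resL_surjective (A : Fin j → Module.Dual (ZMod 2) Y) :
    Function.Surjective (resL (r := r) A) := by
  intro g
  refine ⟨⟨fun x => g.1 x.2, RM_comp (LinearMap.snd (ZMod 2) (Fin j → ZMod 2) Y) g.2⟩, ?_⟩
  apply Subtype.ext
  funext y
  rfl

theorem eqn_mem (A : Fin j → Module.Dual (ZMod 2) Y) (ψ : Module.Dual (ZMod 2) (RM Y r))
    (i : Fin j) : eqn A i ∈ ZZ (ψ ∘ₗ resL A) := by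
  intro c k
  rw [LinearMap.comp_apply]
  have : resL A (cw (Function.update c k (eqn A i))) = 0 := by
    apply Subtype.ext
    funext y
    rw [resL_val]
    change mono (Function.update c k (eqn A i)) (gr A y) = 0
    rw [mono_update, eqn_gr, zero_mul]
  rw [this, map_zero]

variable [Fintype Y] [DecidableEq Y]

omit [DecidableEq Y] in
/-- The Fourier weight seen by a graph. -/
theorem sum_psi_le {ι : Type} [Fintype ι] (A : Fin j → Module.Dual (ZMod 2) Y)
    (z : ι → RM (UU j Y) r) :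
    ∑ ψ : Module.Dual (ZMod 2) (RM Y r), (∑ f, sgn (ψ (resL A (z f)))) ^ 2 ≤
      ∑ φ : Module.Dual (ZMod 2) (RM (UU j Y) r),
        (open Classical in if ∀ i, eqn A i ∈ ZZ φ then (∑ f, sgn (φ (z f))) ^ 2 else 0) := by
  classical
  rw [← Finset.sum_filter]
  have hinj : Function.Injective (fun ψ : Module.Dual (ZMod 2) (RM Y r) => ψ ∘ₗ resL A) := by
    intro ψ ψ' h
    ext g
    obtain ⟨w, rfl⟩ := resL_surjective A g
    exact LinearMap.congr_fun h w
  have h1 : ∑ ψ : Module.Dual (ZMod 2) (RM Y r), (∑ f, sgn (ψ (resL A (z f)))) ^ 2 =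
      ∑ φ ∈ Finset.univ.image (fun ψ : Module.Dual (ZMod 2) (RM Y r) => ψ ∘ₗ resL A),
        (∑ f, sgn (φ (z f))) ^ 2 := by
    rw [Finset.sum_image (fun a _ b _ h => hinj h)]
    rfl
  rw [h1]
  apply Finset.sum_le_sum_of_subset_of_nonneg
  · intro φ hφ
    rw [Finset.mem_image] at hφ
    obtain ⟨ψ, -, rfl⟩ := hφ
    rw [Finset.mem_filter]
    exact ⟨Finset.mem_univ _, fun i => eqn_mem A ψ i⟩
  · intro φ _ _
    positivity

/-- Being a sum of few evaluations. -/
def IsLow (D : ℕ) (φ : Module.Dual (ZMod 2) (RM (UU j Y) r)) : Prop :=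
  ∃ T ∈ lowSets (UU j Y) D, ∀ z : RM (UU j Y) r, φ z = ∑ x ∈ T, z.1 x

/-- Weight of the low functionals. -/
theorem low_weight (D : ℕ) (hD : 4 * D ≤ 2 ^ r) {ι : Type} [Fintype ι]
    (z : ι → RM (UU j Y) r) (hz : Function.Injective z) (μ τ : ℝ)
    (hμ : (Fintype.card ι : ℝ) = μ * Fintype.card (RM (UU j Y) r)) (hτ0 : 0 ≤ τ)
    (hτ : τ ^ 2 = μ) :
    ∑ φ : Module.Dual (ZMod 2) (RM (UU j Y) r),
      (open Classical in if IsLow D φ then (∑ f, sgn (φ (z f))) ^ 2 else 0) ≤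
      (Fintype.card (RM (UU j Y) r) : ℝ) ^ 2 * (3 ^ D * μ * τ) := by
  classical
  obtain ⟨K, hK⟩ : ∃ K : ℝ, K = Fintype.card (RM (UU j Y) r) := ⟨_, rfl⟩
  have hK0 : 0 < K := by rw [hK]; exact_mod_cast Fintype.card_pos
  rw [← hK]
  have hμ0 : 0 ≤ μ := by rw [← hτ]; positivity
  -- indicator function of the image
  obtain ⟨f1, hf1⟩ : ∃ f1 : RM (UU j Y) r → ℝ, ∀ w, f1 w = if ∃ f, z f = w then 1 else 0 :=
    ⟨_, fun _ => rfl⟩
  have hf01 : ∀ w, f1 w = 0 ∨ f1 w = 1 := by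
    intro w; rw [hf1]; split_ifs <;> simp
  have hsum : ∀ g : RM (UU j Y) r → ℝ, ∑ w, f1 w * g w = ∑ f, g (z f) := by
    intro g
    have h1 : ∀ w, f1 w * g w = if ∃ f, z f = w then g w else 0 := by
      intro w; rw [hf1]; split_ifs <;> simp
    simp only [h1]
    rw [← Finset.sum_filter]
    have h2 : (Finset.univ.filter fun w => ∃ f, z f = w) = Finset.univ.image z := by
      ext w; simp
    rw [h2, Finset.sum_image fun a _ b _ h => hz h]
  have hcount : (∑ w, f1 w) / K = μ := by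
    have := hsum (fun _ => 1)
    simp only [mul_one] at this
    rw [this, Finset.sum_const, Finset.card_univ, nsmul_eq_mul, mul_one, hμ, ← hK]
    field_simp
  have hlev := level (U := UU j Y) hD f1 hf01
  rw [← hK, hcount] at hlev
  have hlev2 : ∑ T ∈ lowSets (UU j Y) D,
      ((∑ w : RM (UU j Y) r, f1 w * walsh T (bits w.1)) / K) ^ 2 ≤ 3 ^ D * μ * τ := by
    have h0 : 0 ≤ 3 ^ D * μ * τ := by positivity
    have h1 : (9 : ℝ) ^ D * μ ^ 3 = (3 ^ D * μ * τ) ^ 2 := by
      have : (9 : ℝ) ^ D = (3 ^ D) ^ 2 := by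
        rw [← pow_mul, mul_comm, pow_mul]; norm_num
      rw [this, mul_pow, mul_pow, hτ]
      ring
    rw [h1] at hlev
    exact (le_abs_self _).trans (abs_le_of_sq_le_sq hlev h0)
  have hlev3 : ∑ T ∈ lowSets (UU j Y) D, (∑ f, sgn (∑ x ∈ T, (z f).1 x)) ^ 2 ≤
      K ^ 2 * (3 ^ D * μ * τ) := by
    have h1 : ∑ T ∈ lowSets (UU j Y) D, (∑ f, sgn (∑ x ∈ T, (z f).1 x)) ^ 2 = K ^ 2 *
        ∑ T ∈ lowSets (UU j Y) D,
          ((∑ w : RM (UU j Y) r, f1 w * walsh T (bits w.1)) / K) ^ 2 := by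
      rw [Finset.mul_sum]
      refine Finset.sum_congr rfl fun T _ => ?_
      rw [hsum (fun w => walsh T (bits w.1)), div_pow]
      simp only [walsh_bits]
      field_simp
    rw [h1]
    exact mul_le_mul_of_nonneg_left hlev2 (by positivity)
  refine le_trans ?_ hlev3
  rw [← Finset.sum_filter]
  -- choose the sets
  have hch : ∀ φ : Module.Dual (ZMod 2) (RM (UU j Y) r), ∃ T : Finset (UU j Y), IsLow D φ →
      T ∈ lowSets (UU j Y) D ∧ ∀ w : RM (UU j Y) r, φ w = ∑ x ∈ T, w.1 x := by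
    intro φ
    by_cases h : IsLow D φ
    · obtain ⟨T, hT, hT'⟩ := h
      exact ⟨T, fun _ => ⟨hT, hT'⟩⟩
    · exact ⟨∅, fun h' => absurd h' h⟩
  choose Ts hTs using hch
  have h1 : ∑ φ : Module.Dual (ZMod 2) (RM (UU j Y) r) with IsLow D φ,
      (∑ f, sgn (φ (z f))) ^ 2 =
      ∑ φ : Module.Dual (ZMod 2) (RM (UU j Y) r) with IsLow D φ,
      (∑ f, sgn (∑ x ∈ Ts φ, (z f).1 x)) ^ 2 := by
    refine Finset.sum_congr rfl fun φ hφ => ?_
    rw [Finset.mem_filter] at hφ
    simp only [(hTs φ hφ.2).2]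
  rw [h1]
  have h2 : ∑ φ : Module.Dual (ZMod 2) (RM (UU j Y) r) with IsLow D φ,
      (∑ f, sgn (∑ x ∈ Ts φ, (z f).1 x)) ^ 2 =
      ∑ T ∈ (Finset.univ.filter fun φ : Module.Dual (ZMod 2) (RM (UU j Y) r) =>
        IsLow D φ).image Ts, (∑ f, sgn (∑ x ∈ T, (z f).1 x)) ^ 2 := by
    rw [Finset.sum_image]
    intro φ hφ φ' hφ' h
    rw [Finset.mem_coe, Finset.mem_filter] at hφ hφ'
    ext w
    rw [(hTs φ hφ.2).2 w, (hTs φ' hφ'.2).2 w, h]
  rw [h2]
  apply Finset.sum_le_sum_of_subset_of_nonneg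
  · intro T hT
    rw [Finset.mem_image] at hT
    obtain ⟨φ, hφ, rfl⟩ := hT
    rw [Finset.mem_filter] at hφ
    exact (hTs φ hφ.2).1
  · intro T _ _
    positivity

/-- The total Fourier weight seen by all graphs. -/
theorem total_weight (hr : 1 ≤ r) (D : ℕ) (hD : 4 * D ≤ 2 ^ r) {ι : Type} [Fintype ι]
    (z : ι → RM (UU j Y) r) (hz : Function.Injective z) (μ τ : ℝ)
    (hμ : (Fintype.card ι : ℝ) = μ * Fintype.card (RM (UU j Y) r)) (hτ0 : 0 ≤ τ)
    (hτ : τ ^ 2 = μ) :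
    ∑ A : Fin j → Module.Dual (ZMod 2) Y, ∑ φ : Module.Dual (ZMod 2) (RM (UU j Y) r),
        (open Classical in if ∀ i, eqn A i ∈ ZZ φ then (∑ f, sgn (φ (z f))) ^ 2 else 0) ≤
      (Fintype.card (Fin j → Module.Dual (ZMod 2) Y) : ℝ) *
        ((Fintype.card (RM (UU j Y) r) : ℝ) ^ 2 * μ * (3 ^ D * τ + 1 / (D + 2) ^ j)) := by
  classical
  obtain ⟨K, hK⟩ : ∃ K : ℝ, K = Fintype.card (RM (UU j Y) r) := ⟨_, rfl⟩
  obtain ⟨X, hX⟩ : ∃ X : ℝ, X = Fintype.card (Fin j → Module.Dual (ZMod 2) Y) := ⟨_, rfl⟩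
  have hX0 : 0 < X := by rw [hX]; exact_mod_cast Fintype.card_pos
  rw [Finset.sum_comm]
  have h1 : ∀ φ : Module.Dual (ZMod 2) (RM (UU j Y) r),
      ∑ A : Fin j → Module.Dual (ZMod 2) Y,
        (if ∀ i, eqn A i ∈ ZZ φ then (∑ f, sgn (φ (z f))) ^ 2 else 0) ≤
      X * ((if IsLow D φ then (∑ f, sgn (φ (z f))) ^ 2 else 0) +
        1 / (D + 2) ^ j * (∑ f, sgn (φ (z f))) ^ 2) := by
    intro φ
    rw [← Finset.sum_filter, Finset.sum_const, nsmul_eq_mul]
    obtain ⟨F, hF⟩ : ∃ F : ℝ, F = (∑ f, sgn (φ (z f))) ^ 2 := ⟨_, rfl⟩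
    have hF0 : 0 ≤ F := by rw [hF]; positivity
    rw [← hF]
    by_cases h : IsLow D φ
    · rw [if_pos h]
      have h2 : ((Finset.univ.filter fun A : Fin j → Module.Dual (ZMod 2) Y =>
          ∀ i, eqn A i ∈ ZZ φ).card : ℝ) ≤ X := by
        rw [hX]
        exact_mod_cast Finset.card_le_univ _
      have h3 : 0 ≤ 1 / ((D : ℝ) + 2) ^ j * F := by positivity
      calc _ ≤ X * F := mul_le_mul_of_nonneg_right h2 hF0
        _ ≤ X * (F + 1 / ((D : ℝ) + 2) ^ j * F) :=
            mul_le_mul_of_nonneg_left (by linarith) hX0.le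
    · rw [if_neg h, zero_add, ← mul_assoc]
      apply mul_le_mul_of_nonneg_right _ hF0
      have h2 := count_high hr D φ h
      rw [Nat.card_eq_fintype_card, Nat.card_eq_fintype_card, Fintype.card_subtype] at h2
      rw [mul_one_div, le_div_iff₀ (by positivity), hX]
      exact_mod_cast h2
  refine (Finset.sum_le_sum fun φ _ => h1 φ).trans ?_
  rw [← Finset.mul_sum, Finset.sum_add_distrib, ← Finset.mul_sum, ← hX]
  apply mul_le_mul_of_nonneg_left _ hX0.le
  have h2 := low_weight D hD z hz μ τ hμ hτ0 hτ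
  have h3 : ∑ φ : Module.Dual (ZMod 2) (RM (UU j Y) r), (∑ f, sgn (φ (z f))) ^ 2 =
      K ^ 2 * μ := by
    rw [parseval_family, ← hK]
    have h4 : ∑ y : RM (UU j Y) r, ((Finset.univ.filter fun f => z f = y).card : ℝ) ^ 2 =
        ∑ y : RM (UU j Y) r, ((Finset.univ.filter fun f => z f = y).card : ℝ) := by
      refine Finset.sum_congr rfl fun y _ => ?_
      have h5 : (Finset.univ.filter fun f => z f = y).card ≤ 1 := by
        rw [Finset.card_le_one]
        intro a ha b hb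
        rw [Finset.mem_filter] at ha hb
        exact hz (ha.2.trans hb.2.symm)
      interval_cases (Finset.univ.filter fun f => z f = y).card <;> norm_num
    rw [h4]
    have h6 : ∑ y : RM (UU j Y) r, ((Finset.univ.filter fun f => z f = y).card : ℝ) =
        Fintype.card ι := by
      have := Finset.card_eq_sum_card_fiberwise (f := z) (s := Finset.univ)
        (t := Finset.univ) (fun _ _ => Finset.mem_coe.mpr (Finset.mem_univ _))
      rw [Finset.card_univ] at this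
      rw [this]
      push_cast
      rfl
    rw [h6, hμ, ← hK]
    ring
  rw [h3]
  rw [← hK] at h2 ⊢
  calc _ ≤ K ^ 2 * (3 ^ D * μ * τ) + 1 / ((D : ℝ) + 2) ^ j * (K ^ 2 * μ) :=
        add_le_add h2 le_rfl
    _ = _ := by ring

/-- The value bound. -/
theorem value_bound (hr : 1 ≤ r) (D : ℕ) (hD : 4 * D ≤ 2 ^ r)
    (z : G0 (UU j Y) r → RM (UU j Y) r) (hz : Function.Injective z)
    (B : (Fin j → Module.Dual (ZMod 2) Y) → Finset (RM Y r))
    (hB : ∀ A, (B A).card ≤ Fintype.card (G0 Y r)) :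
    (∑ A : Fin j → Module.Dual (ZMod 2) Y,
      ((Finset.univ.filter fun f => resL A (z f) ∈ B A).card : ℝ)) ^ 2 ≤
      2 ^ j * (3 ^ D / Real.sqrt (Fintype.card (UU j Y)) + 1 / (D + 2) ^ j) *
        ((Fintype.card (G0 (UU j Y) r) : ℝ) *
          Fintype.card (Fin j → Module.Dual (ZMod 2) Y)) ^ 2 := by
  classical
  obtain ⟨K, hK⟩ : ∃ K : ℝ, K = Fintype.card (RM (UU j Y) r) := ⟨_, rfl⟩
  obtain ⟨K', hK'⟩ : ∃ K' : ℝ, K' = Fintype.card (RM Y r) := ⟨_, rfl⟩
  obtain ⟨X, hX⟩ : ∃ X : ℝ, X = Fintype.card (Fin j → Module.Dual (ZMod 2) Y) := ⟨_, rfl⟩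
  obtain ⟨N, hN⟩ : ∃ N : ℝ, N = Fintype.card (UU j Y) := ⟨_, rfl⟩
  obtain ⟨n, hn⟩ : ∃ n : ℝ, n = Fintype.card Y := ⟨_, rfl⟩
  obtain ⟨G, hG⟩ : ∃ G : ℝ, G = Fintype.card (G0 (UU j Y) r) := ⟨_, rfl⟩
  obtain ⟨G', hG'⟩ : ∃ G' : ℝ, G' = Fintype.card (G0 Y r) := ⟨_, rfl⟩
  have hX0 : 0 < X := by rw [hX]; exact_mod_cast Fintype.card_pos
  have hK0 : 0 < K := by rw [hK]; exact_mod_cast Fintype.card_pos
  have hK'0 : 0 < K' := by rw [hK']; exact_mod_cast Fintype.card_pos
  have hN0 : 0 < N := by rw [hN]; exact_mod_cast Fintype.card_pos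
  have hn0 : 0 < n := by rw [hn]; exact_mod_cast Fintype.card_pos
  have e1 : G * N = K := by
    rw [hG, hN, hK]; exact_mod_cast card_G0 (U := UU j Y) hr
  have e2 : G' * n = K' := by
    rw [hG', hn, hK']; exact_mod_cast card_G0 (U := Y) hr
  have e3 : N = 2 ^ j * n := by
    rw [hN, hn, Fintype.card_prod, Fintype.card_fun, ZMod.card, Fintype.card_fin]
    push_cast
    rfl
  have hG'0 : 0 < G' := by
    rw [hG']; exact_mod_cast Fintype.card_pos
  rw [← hX, ← hN, ← hG]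
  -- one graph
  have h1 : ∀ A : Fin j → Module.Dual (ZMod 2) Y,
      ((Finset.univ.filter fun f => resL A (z f) ∈ B A).card : ℝ) ^ 2 ≤
        G' / K' * ∑ φ : Module.Dual (ZMod 2) (RM (UU j Y) r),
        (if ∀ i, eqn A i ∈ ZZ φ then (∑ f, sgn (φ (z f))) ^ 2 else 0) := by
    intro A
    have h2 : ((Finset.univ.filter fun f => resL A (z f) ∈ B A).card : ℝ) =
        ∑ y ∈ B A, ((Finset.univ.filter fun f => resL A (z f) = y).card : ℝ) := by
      rw [← Nat.cast_sum]
      congr 1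
      have h7 := Finset.card_eq_sum_card_fiberwise (f := fun f => resL A (z f))
        (s := Finset.univ.filter fun f => resL A (z f) ∈ B A) (t := B A)
        (fun f hf => by
          rw [Finset.mem_coe, Finset.mem_filter] at hf
          exact hf.2)
      rw [h7]
      refine Finset.sum_congr rfl fun y hy => ?_
      congr 1
      ext f
      simp only [Finset.mem_filter, Finset.mem_univ, true_and]
      constructor
      · exact fun h => h.2
      · intro h
        exact ⟨h ▸ hy, h⟩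
    rw [h2]
    refine (sq_sum_le_card_mul_sum_sq (s := B A)).trans ?_
    have h3 : ∑ y ∈ B A, ((Finset.univ.filter fun f => resL A (z f) = y).card : ℝ) ^ 2 ≤
        ∑ y, ((Finset.univ.filter fun f => resL A (z f) = y).card : ℝ) ^ 2 :=
      Finset.sum_le_sum_of_subset_of_nonneg (Finset.subset_univ _) fun _ _ _ => sq_nonneg _
    have h4 := parseval_family (fun f => resL A (z f))
    have h5 := sum_psi_le A z
    rw [h4, ← hK'] at h5
    have h6 : ((B A).card : ℝ) ≤ G' := by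
      rw [hG']; exact_mod_cast hB A
    calc ((B A).card : ℝ) * ∑ y ∈ B A,
          ((Finset.univ.filter fun f => resL A (z f) = y).card : ℝ) ^ 2
        ≤ G' * ∑ y, ((Finset.univ.filter fun f => resL A (z f) = y).card : ℝ) ^ 2 :=
          mul_le_mul h6 h3 (Finset.sum_nonneg fun _ _ => sq_nonneg _) hG'0.le
      _ = G' / K' * (K' * ∑ y,
          ((Finset.univ.filter fun f => resL A (z f) = y).card : ℝ) ^ 2) := by
          field_simp
      _ ≤ _ := mul_le_mul_of_nonneg_left h5 (by positivity)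
  have h2 := total_weight hr D hD z hz (1 / N) (1 / Real.sqrt N) (by
      rw [← hG, ← hK, ← e1]; field_simp) (by positivity) (by
      rw [div_pow, Real.sq_sqrt hN0.le, one_pow])
  rw [← hX, ← hK] at h2
  have h3 := Finset.sum_le_sum fun A (_ : A ∈ (Finset.univ :
    Finset (Fin j → Module.Dual (ZMod 2) Y))) => h1 A
  rw [← Finset.mul_sum] at h3
  have h4 := sq_sum_le_card_mul_sum_sq (s := (Finset.univ :
    Finset (Fin j → Module.Dual (ZMod 2) Y)))
    (f := fun A => ((Finset.univ.filter fun f => resL A (z f) ∈ B A).card : ℝ))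
  rw [Finset.card_univ, ← hX] at h4
  refine h4.trans ?_
  refine (mul_le_mul_of_nonneg_left (h3.trans (mul_le_mul_of_nonneg_left h2
    (by positivity))) hX0.le).trans ?_
  apply le_of_eq
  rw [← e1, ← e2, e3]
  field_simp

end

end Pool.Agent.H92.SC
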