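import Mathlib
import Pool.Agent.H92.SC.Value

/-!
The games on Reed-Muller functions: perfect vector solutions and small value.
-/

set_option autoImplicit false

namespace Pool.Agent.H92.SC

open Finset

section

variable {A B D : Type} [Fintype A] [Fintype B] [Fintype D] [DecidableEq B]

theorem dot_fibre {x : A → D → ℝ} {y : B → D → ℝ} (π : A → B)
    (hx : ∀ a a', a ≠ a' → x a ⬝ᵥ x a' = 0) (hy : ∀ b, y b = ∑ a with π a = b, x a) (a : A)
    (b : B) : x a ⬝ᵥ y b = if π a = b then x a ⬝ᵥ x a else 0 := by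
  classical
  rw [hy, dotProduct_sum]
  split_ifs with h
  · rw [Finset.sum_eq_single a]
    · intro a' _ ha'
      exact hx a a' (Ne.symm ha')
    · intro h'
      exfalso
      apply h'
      rw [Finset.mem_filter]
      exact ⟨Finset.mem_univ _, h⟩
  · apply Finset.sum_eq_zero
    intro a' ha'
    rw [Finset.mem_filter] at ha'
    apply hx
    rintro rfl
    exact h ha'.2

theorem norm_sum {x : A → D → ℝ} {z : D → ℝ}
    (hx : ∀ a a', a ≠ a' → x a ⬝ᵥ x a' = 0) (hs : ∑ a, x a = z) :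
    ∑ a, x a ⬝ᵥ x a = z ⬝ᵥ z := by
  classical
  rw [← hs, sum_dotProduct]
  refine Finset.sum_congr rfl fun a _ => ?_
  rw [dotProduct_sum, Finset.sum_eq_single a]
  · intro a' _ ha'
    exact hx a a' (Ne.symm ha')
  · intro h
    exact absurd (Finset.mem_univ a) h

end

section

variable {Y : Type} [AddCommGroup Y] [Module (ZMod 2) Y] {j r d : ℕ}

/-- The functional of a label. -/
def lab (κ : Fin d → Module.Dual (ZMod 2) (Fin j → ZMod 2)) (l : Fin d × Module.Dual (ZMod 2) Y) :
    Module.Dual (ZMod 2) (UU j Y) := (κ l.1).coprod l.2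

theorem lab_apply (κ : Fin d → Module.Dual (ZMod 2) (Fin j → ZMod 2))
    (l : Fin d × Module.Dual (ZMod 2) Y) (g : UU j Y) : lab κ l g = κ l.1 g.1 + l.2 g.2 := by
  rw [lab, LinearMap.coprod_apply]

/-- Restriction of a function to a graph. -/
def rf (A : Fin j → Module.Dual (ZMod 2) Y) (f : UU j Y → ZMod 2) : Y → ZMod 2 :=
  fun y => f (gr A y)

/-- The constraint of an edge. -/
noncomputable def pr (κ : Fin d → Module.Dual (ZMod 2) (Fin j → ZMod 2))
    (e : G0 (UU j Y) r × (Fin j → Module.Dual (ZMod 2) Y)) (l : Fin d × Module.Dual (ZMod 2) Y) :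
    Module.Dual (ZMod 2) Y := lab κ l ∘ₗ gr e.2 + idx Y (rf e.2 e.1.1)

/-- The left end of an edge. -/
noncomputable def lv (hr : 1 ≤ r) (e : G0 (UU j Y) r × (Fin j → Module.Dual (ZMod 2) Y)) :
    (Fin j → Module.Dual (ZMod 2) Y) × G0 Y r :=
  (e.2, ⟨rep (rf e.2 e.1.1), rep_mem hr (RM_comp (gr e.2) e.1.2.1)⟩)

theorem pr_eq_iff (κ : Fin d → Module.Dual (ZMod 2) (Fin j → ZMod 2))
    (e : G0 (UU j Y) r × (Fin j → Module.Dual (ZMod 2) Y)) (k : Fin d)
    (v b : Module.Dual (ZMod 2) Y) :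
    pr κ e (k, v) = b ↔ v = b + idx Y (rf e.2 e.1.1) + κ k ∘ₗ LinearMap.pi e.2 := by
  have h1 : pr κ e (k, v) = κ k ∘ₗ LinearMap.pi e.2 + v + idx Y (rf e.2 e.1.1) := by
    rw [pr]
    congr 1
  rw [h1]
  constructor
  · intro h
    rw [← h]
    have e1 := m_add_self (idx Y (rf e.2 e.1.1))
    have e2 := m_add_self (κ k ∘ₗ LinearMap.pi e.2)
    calc v = v + (idx Y (rf e.2 e.1.1) + idx Y (rf e.2 e.1.1)) +
          (κ k ∘ₗ LinearMap.pi e.2 + κ k ∘ₗ LinearMap.pi e.2) := by rw [e1, e2]; simp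
      _ = _ := by abel
  · intro h
    rw [h]
    have e1 := m_add_self (idx Y (rf e.2 e.1.1))
    have e2 := m_add_self (κ k ∘ₗ LinearMap.pi e.2)
    calc κ k ∘ₗ LinearMap.pi e.2 + (b + idx Y (rf e.2 e.1.1) + κ k ∘ₗ LinearMap.pi e.2) +
          idx Y (rf e.2 e.1.1) = b + (idx Y (rf e.2 e.1.1) + idx Y (rf e.2 e.1.1)) +
          (κ k ∘ₗ LinearMap.pi e.2 + κ k ∘ₗ LinearMap.pi e.2) := by abel
      _ = b := by rw [e1, e2]; simp

theorem rep_add (f : Y → ZMod 2) (a : Module.Dual (ZMod 2) Y) : rep (f + lin Y a) = rep f := by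
  rw [rep, rep, map_add, idx_lin, map_add]
  abel

theorem idx_add (f : Y → ZMod 2) (a : Module.Dual (ZMod 2) Y) :
    idx Y (f + lin Y a) = a + idx Y f := by
  rw [map_add, idx_lin, add_comm]

/-- Sum over the labels which are not duplicates. -/
theorem sum_nondup {κ : Fin d → Module.Dual (ZMod 2) (Fin j → ZMod 2)}
    (hκ : Function.Surjective κ) (F : Module.Dual (ZMod 2) (Fin j → ZMod 2) → ℝ) :
    ∑ k, (if Function.surjInv hκ (κ k) = k then F (κ k) else 0) = ∑ u, F u := by
  classical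
  rw [← Finset.sum_fiberwise (s := Finset.univ) (g := κ)]
  refine Finset.sum_congr rfl fun u _ => ?_
  have h1 : ∀ k ∈ Finset.univ.filter (fun k => κ k = u),
      (if Function.surjInv hκ (κ k) = k then F (κ k) else 0) =
      if Function.surjInv hκ u = k then F u else 0 := by
    intro k hk
    rw [Finset.mem_filter] at hk
    rw [hk.2]
  rw [Finset.sum_congr rfl h1, Finset.sum_ite_eq, if_pos]
  rw [Finset.mem_filter]
  exact ⟨Finset.mem_univ _, Function.surjInv_eq hκ u⟩

variable [Fintype Y] [DecidableEq Y]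

omit [DecidableEq Y] in
theorem pr_fibre [DecidableEq (Module.Dual (ZMod 2) Y)]
    (κ : Fin d → Module.Dual (ZMod 2) (Fin j → ZMod 2))
    (e : G0 (UU j Y) r × (Fin j → Module.Dual (ZMod 2) Y)) (b : Module.Dual (ZMod 2) Y) :
    (Finset.univ.filter fun l => pr κ e l = b).card = d := by
  rw [Finset.card_filter, Fintype.sum_prod_type]
  simp only [pr_eq_iff, Finset.sum_ite_eq', Finset.mem_univ, if_true]
  simp

/-- Vectors of the labels on the right. -/
noncomputable def xv {κ : Fin d → Module.Dual (ZMod 2) (Fin j → ZMod 2)}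
    (hκ : Function.Surjective κ) (f : G0 (UU j Y) r) (l : Fin d × Module.Dual (ZMod 2) Y) :
    UU j Y → ℝ := fun g =>
  if Function.surjInv hκ (κ l.1) = l.1 then
    1 / (Fintype.card (UU j Y) : ℝ) * sgn (f.1 g + lab κ l g) else 0

/-- Vectors of the labels on the left. -/
noncomputable def yv (v : (Fin j → Module.Dual (ZMod 2) Y) × G0 Y r)
    (b : Module.Dual (ZMod 2) Y) : UU j Y → ℝ := fun g =>
  if g = gr v.1 g.2 then 1 / (Fintype.card Y : ℝ) * sgn (v.2.1 g.2 + b g.2) else 0

/-- The unit vector. -/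
def zv (j : ℕ) (Y : Type) [AddCommGroup Y] [DecidableEq Y] : UU j Y → ℝ := fun g =>
  if g = 0 then 1 else 0

omit [Module (ZMod 2) Y] in
theorem zv_unit : zv j Y ⬝ᵥ zv j Y = 1 := by
  unfold dotProduct zv
  simp

omit [AddCommGroup Y] [Module (ZMod 2) Y] [DecidableEq Y] in
theorem card_UU : (Fintype.card (UU j Y) : ℝ) = 2 ^ j * Fintype.card Y := by
  rw [Fintype.card_prod, Fintype.card_fun, ZMod.card, Fintype.card_fin]
  push_cast
  rfl

theorem xv_sum (hr : 1 ≤ r) {κ : Fin d → Module.Dual (ZMod 2) (Fin j → ZMod 2)}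
    (hκ : Function.Surjective κ) (f : G0 (UU j Y) r) : ∑ l, xv hκ f l = zv j Y := by
  have hn : (Fintype.card Y : ℝ) ≠ 0 := by exact_mod_cast Fintype.card_ne_zero
  funext g
  rw [Finset.sum_apply, Fintype.sum_prod_type]
  have h1 : ∀ k, ∑ v : Module.Dual (ZMod 2) Y, xv hκ f (k, v) g =
      if Function.surjInv hκ (κ k) = k then
        1 / (Fintype.card (UU j Y) : ℝ) * sgn (f.1 g) * sgn (κ k g.1) *
          ∑ v : Module.Dual (ZMod 2) Y, sgn (v g.2) else 0 := by
    intro k
    split_ifs with h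
    · rw [Finset.mul_sum]
      refine Finset.sum_congr rfl fun v _ => ?_
      rw [xv, if_pos h, lab_apply, sgn_add, sgn_add]
      ring
    · apply Finset.sum_eq_zero
      intro v _
      rw [xv, if_neg h]
  simp only [h1]
  rw [sum_nondup hκ (fun u => 1 / (Fintype.card (UU j Y) : ℝ) * sgn (f.1 g) * sgn (u g.1) *
          ∑ v : Module.Dual (ZMod 2) Y, sgn (v g.2)), ← Finset.sum_mul, ← Finset.mul_sum,
    sum_sgn_dual, sum_sgn_dual, card_dual, card_dual, card_UU, zv]
  by_cases hg1 : g.1 = 0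
  · by_cases hg2 : g.2 = 0
    · have hg : g = 0 := Prod.ext hg1 hg2
      rw [if_pos hg1, if_pos hg2, if_pos hg, hg, RM_zero hr f.2.1, sgn_zero, Fintype.card_fun,
        ZMod.card, Fintype.card_fin]
      push_cast
      field_simp
    · have hg : g ≠ 0 := fun h => hg2 (by rw [h]; rfl)
      rw [if_neg hg2, if_neg hg, mul_zero]
  · have hg : g ≠ 0 := fun h => hg1 (by rw [h]; rfl)
    rw [if_neg hg1, if_neg hg, mul_zero, zero_mul]

omit [DecidableEq Y] in
theorem xv_orth {κ : Fin d → Module.Dual (ZMod 2) (Fin j → ZMod 2)}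
    (hκ : Function.Surjective κ) (f : G0 (UU j Y) r) (l l' : Fin d × Module.Dual (ZMod 2) Y)
    (hl : l ≠ l') : xv hκ f l ⬝ᵥ xv hκ f l' = 0 := by
  unfold dotProduct
  by_cases h1 : Function.surjInv hκ (κ l.1) = l.1
  · by_cases h2 : Function.surjInv hκ (κ l'.1) = l'.1
    · have h3 : lab κ l + lab κ l' ≠ 0 := by
        intro h
        apply hl
        have h4 : lab κ l = lab κ l' := by
          have := eq_neg_of_add_eq_zero_left h
          rw [this, m_neg]
        have h5 : κ l.1 = κ l'.1 := by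
          ext i
          have := LinearMap.congr_fun h4 (Pi.single i 1, 0)
          rw [lab_apply, lab_apply] at this
          simpa using this
        refine Prod.ext ?_ ?_
        · rw [← h1, ← h2, h5]
        · ext y
          have := LinearMap.congr_fun h4 (0, y)
          rw [lab_apply, lab_apply] at this
          simpa using this
      have h4 : ∀ g, xv hκ f l g * xv hκ f l' g =
          (1 / (Fintype.card (UU j Y) : ℝ)) ^ 2 * sgn ((lab κ l + lab κ l') g) := by
        intro g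
        rw [xv, xv, if_pos h1, if_pos h2, LinearMap.add_apply, sgn_add, sgn_add, sgn_add]
        have := sgn_mul_self (f.1 g)
        linear_combination ((1 / (Fintype.card (UU j Y) : ℝ)) ^ 2 * sgn (lab κ l g) *
          sgn (lab κ l' g)) * this
      simp only [h4]
      rw [← Finset.mul_sum, sum_sgn_pt, if_neg h3, mul_zero]
    · apply Finset.sum_eq_zero
      intro g _
      rw [xv, xv, if_neg h2, mul_zero]
  · apply Finset.sum_eq_zero
    intro g _
    rw [xv, if_neg h1, zero_mul]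

theorem yv_sum (hr : 1 ≤ r) (v : (Fin j → Module.Dual (ZMod 2) Y) × G0 Y r) :
    ∑ b, yv v b = zv j Y := by
  have hn : (Fintype.card Y : ℝ) ≠ 0 := by exact_mod_cast Fintype.card_ne_zero
  funext g
  rw [Finset.sum_apply, zv]
  by_cases h : g = gr v.1 g.2
  · have h1 : ∀ b, yv v b g = 1 / (Fintype.card Y : ℝ) * sgn (v.2.1 g.2) * sgn (b g.2) := by
      intro b
      rw [yv, if_pos h, sgn_add]
      ring
    simp only [h1]
    rw [← Finset.mul_sum, sum_sgn_dual, card_dual]
    by_cases hg2 : g.2 = 0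
    · have hg : g = 0 := by rw [h, hg2, map_zero]
      rw [if_pos hg2, if_pos hg, hg2, RM_zero hr v.2.2.1, sgn_zero]
      field_simp
    · have hg : g ≠ 0 := fun h => hg2 (by rw [h]; rfl)
      rw [if_neg hg2, if_neg hg, mul_zero]
  · have hg : g ≠ 0 := by
      intro hg
      apply h
      rw [hg]
      exact (map_zero (gr v.1)).symm
    rw [if_neg hg]
    apply Finset.sum_eq_zero
    intro b _
    rw [yv, if_neg h]

omit [DecidableEq Y] in
theorem sum_graph (A : Fin j → Module.Dual (ZMod 2) Y) (F : Y → ℝ) [DecidableEq (UU j Y)] :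
    ∑ g : UU j Y, (if g = gr A g.2 then F g.2 else 0) = ∑ y, F y := by
  classical
  rw [Fintype.sum_prod_type_right]
  refine Finset.sum_congr rfl fun y _ => ?_
  have h1 : ∀ s : Fin j → ZMod 2, (if ((s, y) : UU j Y) = gr A (s, y).2 then F (s, y).2 else 0) =
      if s = (fun i => A i y) then F y else 0 := by
    intro s
    by_cases h : s = fun i => A i y
    · rw [if_pos h, if_pos]
      rw [h, gr_apply]
    · rw [if_neg h, if_neg]
      intro h'
      exact h (congrArg Prod.fst h')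
  simp only [h1]
  rw [Finset.sum_ite_eq', if_pos (Finset.mem_univ _)]

theorem yv_orth (v : (Fin j → Module.Dual (ZMod 2) Y) × G0 Y r)
    (b b' : Module.Dual (ZMod 2) Y) (hb : b ≠ b') : yv v b ⬝ᵥ yv v b' = 0 := by
  unfold dotProduct
  have h1 : ∀ g, yv v b g * yv v b' g = if g = gr v.1 g.2 then
      (1 / (Fintype.card Y : ℝ)) ^ 2 * sgn ((b + b') g.2) else 0 := by
    intro g
    rw [yv, yv]
    split_ifs
    · rw [LinearMap.add_apply, sgn_add, sgn_add, sgn_add]
      have := sgn_mul_self (v.2.1 g.2)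
      linear_combination ((1 / (Fintype.card Y : ℝ)) ^ 2 * sgn (b g.2) * sgn (b' g.2)) * this
    · rw [mul_zero]
  simp only [h1]
  rw [sum_graph v.1 (fun y => (1 / (Fintype.card Y : ℝ)) ^ 2 * sgn ((b + b') y)),
    ← Finset.mul_sum, sum_sgn_pt, if_neg, mul_zero]
  intro h
  apply hb
  have := eq_neg_of_add_eq_zero_left h
  rw [this, m_neg]

theorem perfect (hr : 1 ≤ r) [DecidableEq (Module.Dual (ZMod 2) Y)]
    {κ : Fin d → Module.Dual (ZMod 2) (Fin j → ZMod 2)}
    (hκ : Function.Surjective κ) (e : G0 (UU j Y) r × (Fin j → Module.Dual (ZMod 2) Y))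
    (b : Module.Dual (ZMod 2) Y) :
    yv (lv hr e) b = ∑ l with pr κ e l = b, xv hκ e.1 l := by
  have hn : (Fintype.card Y : ℝ) ≠ 0 := by exact_mod_cast Fintype.card_ne_zero
  funext g
  rw [Finset.sum_apply, Finset.sum_filter, Fintype.sum_prod_type]
  simp only [pr_eq_iff, Finset.sum_ite_eq', Finset.mem_univ, if_true]
  have h1 : ∀ k, xv hκ e.1 (k, b + idx Y (rf e.2 e.1.1) + κ k ∘ₗ LinearMap.pi e.2) g =
      if Function.surjInv hκ (κ k) = k then
        1 / (Fintype.card (UU j Y) : ℝ) * sgn (e.1.1 g + idx Y (rf e.2 e.1.1) g.2 + b g.2) *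
          sgn (κ k (g.1 + (gr e.2 g.2).1)) else 0 := by
    intro k
    rw [xv]
    simp only
    split_ifs with h
    · rw [lab_apply]
      have h2 : (b + idx Y (rf e.2 e.1.1) + κ k ∘ₗ LinearMap.pi e.2) g.2 =
          b g.2 + idx Y (rf e.2 e.1.1) g.2 + κ k (gr e.2 g.2).1 := rfl
      simp only [h2, map_add, sgn_add]
      ring
    · rfl
  simp only [h1]
  rw [sum_nondup hκ (fun u => 1 / (Fintype.card (UU j Y) : ℝ) *
    sgn (e.1.1 g + idx Y (rf e.2 e.1.1) g.2 + b g.2) * sgn (u (g.1 + (gr e.2 g.2).1))),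
    ← Finset.mul_sum, sum_sgn_dual, card_dual, card_UU, yv]
  have h2 : g = gr (lv hr e).1 g.2 ↔ g.1 + (gr e.2 g.2).1 = 0 := by
    constructor
    · intro h
      have h3 : g.1 = (gr e.2 g.2).1 := congrArg Prod.fst h
      rw [h3]
      exact m_add_self _
    · intro h
      have h3 := eq_neg_of_add_eq_zero_left h
      rw [m_neg] at h3
      exact Prod.ext h3 rfl
  by_cases h : g.1 + (gr e.2 g.2).1 = 0
  · rw [if_pos (h2.mpr h), if_pos h, Fintype.card_fun, ZMod.card, Fintype.card_fin]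
    have h3 : (lv hr e).2.1 g.2 = e.1.1 g + idx Y (rf e.2 e.1.1) g.2 := by
      have h4 : e.1.1 g = rf e.2 e.1.1 g.2 := congrArg e.1.1 (h2.mpr h)
      rw [h4]
      change (rf e.2 e.1.1 - lin Y (idx Y (rf e.2 e.1.1))) g.2 = _
      rw [m_sub]
      rfl
    rw [h3]
    push_cast
    field_simp
  · rw [if_neg (fun h' => h (h2.mp h')), if_neg h, mul_zero]

/-- The value of the game. -/
theorem game_value (hr : 1 ≤ r) (D : ℕ) (hD : 4 * D ≤ 2 ^ r)
    [DecidableEq (Module.Dual (ZMod 2) Y)]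
    (κ : Fin d → Module.Dual (ZMod 2) (Fin j → ZMod 2))
    (L : G0 (UU j Y) r → Fin d × Module.Dual (ZMod 2) Y)
    (M : (Fin j → Module.Dual (ZMod 2) Y) × G0 Y r → Module.Dual (ZMod 2) Y) :
    ((Finset.univ.filter fun e => pr κ e (L e.1) = M (lv hr e)).card : ℝ) ^ 2 ≤
      2 ^ j * (3 ^ D / Real.sqrt (Fintype.card (UU j Y)) + 1 / (D + 2) ^ j) *
        (Fintype.card (G0 (UU j Y) r × (Fin j → Module.Dual (ZMod 2) Y)) : ℝ) ^ 2 := by
  classical
  let z : G0 (UU j Y) r → RM (UU j Y) r := fun f =>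
    ⟨f.1 + lin _ (lab κ (L f)), (RM _ r).add_mem f.2.1 (lin_mem hr _)⟩
  have hz : Function.Injective z := by
    intro f f' h
    have h1 : f.1 + lin _ (lab κ (L f)) = f'.1 + lin _ (lab κ (L f')) := congrArg Subtype.val h
    apply Subtype.ext
    rw [← rep_of_G0_add f.2 (lab κ (L f)), h1, rep_of_G0_add f'.2]
  let B : (Fin j → Module.Dual (ZMod 2) Y) → Finset (RM Y r) := fun A =>
    Finset.univ.filter fun y => idx Y y.1 = M (A, ⟨rep y.1, rep_mem hr y.2⟩)
  have hB : ∀ A, (B A).card ≤ Fintype.card (G0 Y r) := by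
    intro A
    rw [← Finset.card_univ]
    apply Finset.card_le_card_of_injOn (fun y => (⟨rep y.1, rep_mem hr y.2⟩ : G0 Y r))
      (fun _ _ => Finset.mem_coe.mpr (Finset.mem_univ _))
    intro y hy y' hy' h
    rw [Finset.mem_coe, Finset.mem_filter] at hy hy'
    have h1 : rep y.1 = rep y'.1 := congrArg Subtype.val h
    have h2 : idx Y y.1 = idx Y y'.1 := by
      rw [hy.2, hy'.2]
      exact congrArg (fun t => M (A, t)) h
    apply Subtype.ext
    rw [← rep_add_lin y.1, ← rep_add_lin y'.1, h1, h2]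
  have h1 := value_bound hr D hD z hz B hB
  have h2 : ((Finset.univ.filter fun e : G0 (UU j Y) r × (Fin j → Module.Dual (ZMod 2) Y) =>
      pr κ e (L e.1) = M (lv hr e)).card : ℝ) =
      ∑ A : Fin j → Module.Dual (ZMod 2) Y,
        ((Finset.univ.filter fun f => resL A (z f) ∈ B A).card : ℝ) := by
    rw [← Nat.cast_sum]
    congr 1
    rw [Finset.card_filter, Fintype.sum_prod_type_right]
    refine Finset.sum_congr rfl fun A _ => ?_
    rw [Finset.card_filter]
    refine Finset.sum_congr rfl fun f _ => ?_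
    have h3 : (resL A (z f)).1 = rf A f.1 + lin Y (lab κ (L f) ∘ₗ gr A) := rfl
    have h4 : resL A (z f) ∈ B A ↔ pr κ (f, A) (L f) = M (lv hr (f, A)) := by
      rw [Finset.mem_filter]
      simp only [Finset.mem_univ, true_and]
      have h5 : (⟨rep (resL A (z f)).1, rep_mem hr (resL A (z f)).2⟩ : G0 Y r) =
          (lv hr (f, A)).2 := by
        apply Subtype.ext
        change rep (resL A (z f)).1 = rep (rf A f.1)
        rw [h3, rep_add]
      rw [h5, h3, idx_add]
      rfl
    simp only [h4]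
  rw [h2, Fintype.card_prod (G0 (UU j Y) r) (Fin j → Module.Dual (ZMod 2) Y), Nat.cast_mul]
  exact h1

end

end Pool.Agent.H92.SC
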